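import Pool.Agent.Helper35.Jam.Limit
set_option autoImplicit false
namespace Pool.Agent.Helper35.Jam
open Finset

/-- The six axes of the icosahedron. -/
noncomputable def Yv : Fin 6 → Fin 3 → ℝ :=
  ![![0, 1, ph], ![0, -1, ph], ![ph, 0, 1], ![ph, 0, -1], ![1, ph, 0], ![-1, ph, 0]]

/-- dot product in dimension three -/
noncomputable def dt (u v : Fin 3 → ℝ) : ℝ := ∑ i, u i * v i

theorem dt3 (u v : Fin 3 → ℝ) : dt u v = u 0 * v 0 + u 1 * v 1 + u 2 * v 2 := by
  simp [dt, Fin.sum_univ_succ]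
  ring

theorem g_ph : g = 2 * ph - 1 := by unfold g ph; ring
theorem five_be : 5 * be ^ 2 = ph + 2 := by unfold ph; ring

theorem Y_eig (k : Fin 6) (i : Fin 3) : ∑ j, sg k j * Yv j i = g * Yv k i := by
  have h := ph_sq
  rw [g_ph]
  fin_cases k <;> fin_cases i <;> simp [sg, Yv, Fin.sum_univ_succ] <;> nlinarith [h]

theorem Y_dot (j k : Fin 6) (h : j ≠ k) : dt (Yv j) (Yv k) = ph * sg j k := by
  have hp := ph_sq
  fin_cases j <;> fin_cases k <;> simp [dt3, Yv, sg] at h ⊢ <;> nlinarith [hp]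

theorem Y_self (k : Fin 6) : dt (Yv k) (Yv k) = 5 * be ^ 2 := by
  have hp := ph_sq
  rw [five_be]
  fin_cases k <;> simp [dt3, Yv] <;> nlinarith [hp]

/-- `sum_k (Y_k . u) Y_k = 10 be^2 u` -/
theorem Y_frame (u : Fin 3 → ℝ) (i : Fin 3) : ∑ k, dt (Yv k) u * Yv k i = 10 * be ^ 2 * u i := by
  have hp := ph_sq
  have h5 := five_be
  have h10 : 10 * be ^ 2 = 2 * (ph + 2) := by linarith
  rw [h10]
  fin_cases i <;> simp [dt3, Yv, Fin.sum_univ_succ]
  · linear_combination (2 * u 0) * hp
  · linear_combination (2 * u 1) * hp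
  · linear_combination (2 * u 2) * hp

theorem off_eq (k j : Fin 6) : sg k j * sg j k = off k j := by
  unfold off
  by_cases h : k = j
  · subst h
    simp [sg_diag]
  · rw [if_neg h, sg_symm j k, sg_sq k j h]

theorem sum_off_mul (k : Fin 6) (F : Fin 6 → ℝ) : ∑ j, off k j * F j = ∑ j, F j - F k := by
  have h1 : ∀ j, off k j * F j = F j - (if k = j then F j else 0) := by
    intro j
    unfold off
    split_ifs <;> ring
  simp only [h1, Finset.sum_sub_distrib, Finset.sum_ite_eq, Finset.mem_univ, if_true]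

theorem dt_sum (u : Fin 3 → ℝ) (n : Fin 6 → Fin 3 → ℝ) :
    dt u (fun i => ∑ j, n j i) = ∑ j, dt u (n j) := by
  unfold dt
  simp only [Finset.mul_sum]
  rw [Finset.sum_comm]

theorem iA2 : ta - g * ta - 5 * eta + g * eta = 12 - 20 * be ^ 2 := by
  unfold ta g eta
  linear_combination (20 - 20 * be) * be_quart

theorem iA : g * ta - ta + 5 * eta + g * eta = -10 * be ^ 3 + 30 * be ^ 2 - 12 := by
  unfold ta g eta
  ring

theorem i11 : g * (ta - g * ta - 5 * eta) + 5 * eta = g * (ta - g * ta - 5 * eta + g * eta) := by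
  have := g_sq
  linear_combination (-eta) * this

theorem step1 (n : Fin 6 → Fin 3 → ℝ) (m : Fin 6 → ℝ)
    (h1 : ∀ k, dt (Yv k) (n k) = ta * m k)
    (h2 : ∀ j k, j ≠ k → dt (Yv j) (n k) + sg j k * dt (Yv k) (n j) =
      -(eta * (m j + sg j k * m k))) :
    (∀ k, ∑ j, sg k j * m j = g * m k) ∧
    (∀ k, dt (Yv k) (fun i => ∑ j, n j i) = -((g * ta - ta + 5 * eta + g * eta) * m k)) := by
  have star : ∀ k, dt (Yv k) (fun i => ∑ j, n j i) =
      (ta - g * ta - 5 * eta) * m k - eta * ∑ j, sg k j * m j := by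
    intro k
    have e1 : ∑ j, sg k j * (dt (Yv j) (n k) + sg j k * dt (Yv k) (n j)) =
        ∑ j, sg k j * (-(eta * (m j + sg j k * m k))) := by
      refine Finset.sum_congr rfl fun j _ => ?_
      by_cases h : j = k
      · subst h
        simp [sg_diag]
      · rw [h2 j k h]
    have e2 : ∑ j, sg k j * dt (Yv j) (n k) = g * dt (Yv k) (n k) := by
      have : ∀ j, sg k j * dt (Yv j) (n k) = ∑ i, (sg k j * Yv j i) * n k i := by
        intro j
        unfold dt
        rw [Finset.mul_sum]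
        exact Finset.sum_congr rfl fun i _ => by ring
      simp only [this]
      rw [Finset.sum_comm]
      simp only [← Finset.sum_mul, Y_eig]
      unfold dt
      rw [Finset.mul_sum]
      exact Finset.sum_congr rfl fun i _ => by ring
    have e3 : ∑ j, sg k j * (dt (Yv j) (n k) + sg j k * dt (Yv k) (n j)) =
        g * dt (Yv k) (n k) + (∑ j, dt (Yv k) (n j) - dt (Yv k) (n k)) := by
      rw [← e2, ← sum_off_mul k (fun j => dt (Yv k) (n j)), ← Finset.sum_add_distrib]
      refine Finset.sum_congr rfl fun j _ => ?_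
      rw [← off_eq]
      ring
    have e4 : ∑ j, sg k j * (-(eta * (m j + sg j k * m k))) =
        -(eta * (∑ j, sg k j * m j + 5 * m k)) := by
      have h5 : ∑ j, off k j * m k = 5 * m k := by
        rw [sum_off_mul k (fun _ => m k)]
        simp
        ring
      rw [← h5, ← Finset.sum_add_distrib, Finset.mul_sum, ← Finset.sum_neg_distrib]
      refine Finset.sum_congr rfl fun j _ => ?_
      rw [← off_eq]
      ring
    rw [e3, e4, h1] at e1
    rw [dt_sum]
    linarith
  have hc : ∀ l, ∑ k, sg l k * ∑ j, sg k j * m j = 5 * m l := by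
    intro l
    simp only [Finset.mul_sum]
    rw [Finset.sum_comm]
    have h3 : ∀ j, ∑ k, sg l k * (sg k j * m j) = (if l = j then 5 else 0) * m j := by
      intro j
      rw [← sg_conf, Finset.sum_mul]
      refine Finset.sum_congr rfl fun k _ => ?_
      rw [sg_symm l k]
      ring
    simp only [h3]
    simp
  have hE : ∀ l, ∑ k, sg l k * dt (Yv k) (fun i => ∑ j, n j i) =
      g * dt (Yv l) (fun i => ∑ j, n j i) := by
    intro l
    have : ∀ k, sg l k * dt (Yv k) (fun i => ∑ j, n j i) =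
        ∑ i, (sg l k * Yv k i) * (∑ j, n j i) := by
      intro j
      unfold dt
      rw [Finset.mul_sum]
      exact Finset.sum_congr rfl fun i _ => by ring
    simp only [this]
    rw [Finset.sum_comm]
    simp only [← Finset.sum_mul, Y_eig]
    unfold dt
    rw [Finset.mul_sum]
    exact Finset.sum_congr rfl fun i _ => by ring
  have key : ∀ l, ∑ j, sg l j * m j = g * m l := by
    intro l
    have h3 := hE l
    simp only [star] at h3
    have h4 : ∑ k, sg l k * ((ta - g * ta - 5 * eta) * m k - eta * ∑ j, sg k j * m j) =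
        (ta - g * ta - 5 * eta) * ∑ k, sg l k * m k - eta * (5 * m l) := by
      rw [← hc l, Finset.mul_sum, Finset.mul_sum, ← Finset.sum_sub_distrib]
      refine Finset.sum_congr rfl fun k _ => ?_
      ring
    rw [h4] at h3
    have h5 := i11
    have h6 := iA2
    have h7 : (12 - 20 * be ^ 2) * (∑ j, sg l j * m j - g * m l) = 0 := by
      rw [← h6]
      linear_combination h3 + m l * h5
    rcases mul_eq_zero.mp h7 with h8 | h8
    · exfalso
      have := be2_gt
      linarith
    · linarith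
  refine ⟨key, fun k => ?_⟩
  rw [star k, key k]
  ring

/-- The homogeneous system has only the zero solution. -/
theorem hom (n : Fin 6 → Fin 3 → ℝ) (h1 : ∀ k, dt (Yv k) (n k) = 0)
    (h2 : ∀ j k, j ≠ k → dt (Yv j) (n k) + sg j k * dt (Yv k) (n j) = 0) :
    ∀ k i, n k i = 0 := by
  have hp := ph_sq
  have hpg := ph_gt
  have hp0 : ph ≠ 0 := by linarith
  have a0 := h1 0
  have a1 := h1 1
  have a2 := h1 2
  have a3 := h1 3
  have a4 := h1 4
  have a5 := h1 5
  have e01 := h2 0 1 (by decide)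
  have e23 := h2 2 3 (by decide)
  have e45 := h2 4 5 (by decide)
  have e02 := h2 0 2 (by decide)
  have e03 := h2 0 3 (by decide)
  have e04 := h2 0 4 (by decide)
  have e05 := h2 0 5 (by decide)
  have e12 := h2 1 2 (by decide)
  have e13 := h2 1 3 (by decide)
  have e14 := h2 1 4 (by decide)
  have e15 := h2 1 5 (by decide)
  have e24 := h2 2 4 (by decide)
  have e25 := h2 2 5 (by decide)
  have e34 := h2 3 4 (by decide)
  have e35 := h2 3 5 (by decide)
  simp [dt3, Yv, sg] at a0 a1 a2 a3 a4 a5 e01 e23 e45 e02 e03 e04 e05 e12 e13 e14 e15 e24 e25 e34 e35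
  have key : ∀ t : ℝ, ph * t = 0 → t = 0 := fun t ht => (mul_eq_zero.mp ht).resolve_left hp0
  have p01 : n 1 2 + n 0 2 = 0 := key _ (by linear_combination (1 / 2) * e01 + (1 / 2) * a0 + (1 / 2) * a1)
  have p23 : n 3 0 + n 2 0 = 0 := key _ (by linear_combination (1 / 2) * e23 + (1 / 2) * a2 + (1 / 2) * a3)
  have p45 : n 5 1 + n 4 1 = 0 := key _ (by linear_combination (1 / 2) * e45 + (1 / 2) * a4 + (1 / 2) * a5)
  have n20 : n 2 0 = 0 := key _ (key _ (by
    linear_combination (-1 / 4) * (e02 + e12 + e03 + e13) + (1 / 2) * ph * a2 - (1 / 2) * ph * a3 +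
      (1 / 2) * p01 + (1 / 2) * ph ^ 2 * p23))
  have n02 : n 0 2 = 0 := key _ (key _ (by
    linear_combination (-1 / 4) * (e04 + e05 - e14 - e15) + (1 / 2) * ph * a0 - (1 / 2) * ph * a1 +
      (1 / 2) * p45 + (1 / 2) * ph ^ 2 * p01))
  have n41 : n 4 1 = 0 := key _ (key _ (by
    linear_combination (-1 / 4) * (e24 + e34 + e25 + e35) + (1 / 2) * ph * a4 - (1 / 2) * ph * a5 +
      (1 / 2) * p23 + (1 / 2) * ph ^ 2 * p45))
  have n30 : n 3 0 = 0 := by linarith
  have n12 : n 1 2 = 0 := by linarith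
  have n51 : n 5 1 = 0 := by linarith
  rw [n02] at a0
  rw [n12] at a1
  rw [n20] at a2
  rw [n30] at a3
  rw [n41] at a4
  rw [n51] at a5
  have n01 : n 0 1 = 0 := by linarith
  have n11 : n 1 1 = 0 := by linarith
  have n22 : n 2 2 = 0 := by linarith
  have n32 : n 3 2 = 0 := by linarith
  have n40 : n 4 0 = 0 := by linarith
  have n50 : n 5 0 = 0 := by linarith
  rw [n22, n02] at e02
  rw [n32, n02] at e03
  rw [n41, n01] at e04
  rw [n51, n01] at e05
  rw [n22, n12] at e12
  rw [n40, n20] at e24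
  have n00 : n 0 0 = 0 := by
    have h3 : (ph ^ 3 + 1) * n 0 0 = 0 := by
      linear_combination ph ^ 2 * e02 - ph * e24 + e04
    rcases mul_eq_zero.mp h3 with h4 | h4
    · exfalso
      have : 0 < ph ^ 3 := by positivity
      linarith
    · exact h4
  rw [n00] at e02 e03 e04 e05
  have n21 : n 2 1 = 0 := by linarith
  have n31 : n 3 1 = 0 := by linarith
  have n42 : n 4 2 = 0 := key _ (by linarith)
  have n52 : n 5 2 = 0 := key _ (by linarith)
  rw [n21] at e12
  have n10 : n 1 0 = 0 := key _ (by linarith)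
  intro k i
  fin_cases k <;> fin_cases i <;> assumption


/-- coefficients -/
noncomputable def cal : ℝ := -2 - 2 * be
noncomputable def cb : ℝ := 10 * be ^ 3 + 4 * be ^ 2 - 6 * be - 2
noncomputable def cm : ℝ := 10 * be ^ 3 + 10 * be ^ 2 - 6 * be - 6
noncomputable def cD : ℝ := 40 * be ^ 3 + 20 * be ^ 2 - 32 * be - 20

theorem i7 : (g * ta - ta + 5 * eta + g * eta) * cm + cD = 0 := by
  rw [iA]
  unfold cm cD
  linear_combination (52 + 40 * be - 20 * be ^ 2) * be_quart

theorem i8 : (cal + cb * ph) + eta * cm = 0 := by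
  unfold cal cb ph eta cm
  linear_combination (14 + 10 * be - 10 * be ^ 2) * be_quart

theorem i9 : cal + cb * (5 * be ^ 2) = ta * cm := by
  unfold cal cb ta cm
  linear_combination (10 + 10 * be - 10 * be ^ 2) * be_quart

theorem i10 : 6 * cal + 10 * be ^ 2 * cb = cD := by
  unfold cal cb cD
  linear_combination (8 + 20 * be) * be_quart

theorem iF : ta * cD ^ 2 - 4 * g * ta * cm ^ 2 -
    ka * (6 * cal ^ 2 + 20 * cal * cb * be ^ 2 + 50 * cb ^ 2 * be ^ 4) =
      640 + 1280 * be - 880 * be ^ 2 - 1760 * be ^ 3 := by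
  unfold ta g ka cal cb cm cD
  linear_combination (1312 + 3824 * be - 4000 * be ^ 2 - 10320 * be ^ 3 + 4640 * be ^ 4
    - 400 * be ^ 5 - 6800 * be ^ 6 + 31200 * be ^ 7 + 6000 * be ^ 8 - 30000 * be ^ 9) * be_quart

theorem F_pos : 8 < 640 + 1280 * be - 880 * be ^ 2 - 1760 * be ^ 3 := by
  have h1 := be3_lt
  have h2 := be2_lt
  have h3 := be_gt
  norm_num at *
  linarith

theorem cD_neg : cD < 0 := by
  unfold cD
  have h1 := be3_lt
  have h2 := be2_lt
  have h3 := be_gt
  norm_num at *
  linarith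

theorem A1_pos : 0 < g * ta - ta + 5 * eta + g * eta := by
  have := g_gt
  have := ta_pos
  have := eta_pos
  nlinarith

/-- classification of first-order solutions -/
theorem classify (n : Fin 6 → Fin 3 → ℝ) (m : Fin 6 → ℝ)
    (h1 : ∀ k, dt (Yv k) (n k) = ta * m k)
    (h2 : ∀ j k, j ≠ k → dt (Yv j) (n k) + sg j k * dt (Yv k) (n j) =
      -(eta * (m j + sg j k * m k))) :
    (∀ k, ∑ j, sg k j * m j = g * m k) ∧ ∃ u : Fin 3 → ℝ, (∀ k, m k = cm * dt (Yv k) u) ∧
      (∀ k i, n k i = cal * u i + cb * dt (Yv k) u * Yv k i) ∧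
      (∀ i, ∑ k, n k i = cD * u i) := by
  obtain ⟨s1, s2⟩ := step1 n m h1 h2
  refine ⟨s1, fun i => (∑ j, n j i) / cD, ?_⟩
  have hcD : cD ≠ 0 := cD_neg.ne
  have hu : ∀ k, dt (Yv k) (fun i => (∑ j, n j i) / cD) = dt (Yv k) (fun i => ∑ j, n j i) / cD := by
    intro k
    unfold dt
    rw [Finset.sum_div]
    exact Finset.sum_congr rfl fun i _ => by ring
  have hm : ∀ k, m k = cm * dt (Yv k) (fun i => (∑ j, n j i) / cD) := by
    intro k
    rw [hu, s2 k, mul_div_assoc', eq_div_iff hcD]
    linear_combination (m k) * i7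
  set u : Fin 3 → ℝ := fun i => (∑ j, n j i) / cD with hudef
  have hS : ∀ i, ∑ k, n k i = cD * u i := by
    intro i
    rw [hudef]
    field_simp
  refine ⟨hm, ?_, hS⟩
  have dsub : ∀ (v : Fin 3 → ℝ) (k : Fin 6),
      dt v (fun i => n k i - (cal * u i + cb * dt (Yv k) u * Yv k i)) =
      dt v (n k) - (cal * dt v u + cb * dt (Yv k) u * dt v (Yv k)) := by
    intro v k
    simp only [dt3]
    ring
  have hz := hom (fun k i => n k i - (cal * u i + cb * dt (Yv k) u * Yv k i)) ?_ ?_
  · intro k i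
    have := hz k i
    linarith
  · intro k
    rw [dsub, h1 k, hm k, Y_self]
    linear_combination (-(dt (Yv k) u)) * i9
  · intro j k hjk
    rw [dsub, dsub]
    have h3 := h2 j k hjk
    have h4 := i8
    have h5 := sg_sq j k hjk
    rw [hm j, hm k] at h3
    rw [Y_dot j k hjk, Y_dot k j hjk.symm, sg_symm k j]
    linear_combination h3 - (dt (Yv j) u + sg j k * dt (Yv k) u) * h4 -
      cb * ph * dt (Yv j) u * h5

end Pool.Agent.Helper35.Jam
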