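import Mathlib
set_option autoImplicit false
namespace Pool.Agent.Helper35.Jam
open Finset

/-- Two systems with equal Gram matrices differ by an isometry, if the first one spans. -/
theorem exists_isometry {ι : Type*} [Fintype ι] {V : Type*} [NormedAddCommGroup V]
    [InnerProductSpace ℝ V] [FiniteDimensional ℝ V] (x y : ι → V)
    (hg : ∀ i j, inner ℝ (y i) (y j) = inner ℝ (x i) (x j))
    (hx : Submodule.span ℝ (Set.range x) = ⊤) :
    ∃ g : V ≃ₗᵢ[ℝ] V, ∀ i, y i = g (x i) := by
  classical
  have hsurj : Function.Surjective (Fintype.linearCombination ℝ x) := by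
    rw [← LinearMap.range_eq_top, Fintype.range_linearCombination, hx]
  obtain ⟨R, hR⟩ := (Fintype.linearCombination ℝ x).exists_rightInverse_of_surjective
    (LinearMap.range_eq_top.mpr hsurj)
  have hnorm : ∀ f : ι → ℝ, ‖Fintype.linearCombination ℝ y f‖ = ‖Fintype.linearCombination ℝ x f‖ := by
    intro f
    have h1 : ‖Fintype.linearCombination ℝ y f‖ ^ 2 = ‖Fintype.linearCombination ℝ x f‖ ^ 2 := by
      rw [← real_inner_self_eq_norm_sq, ← real_inner_self_eq_norm_sq]
      simp only [Fintype.linearCombination_apply, sum_inner, inner_sum, inner_smul_left,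
        inner_smul_right, hg]
    exact (pow_left_inj₀ (norm_nonneg _) (norm_nonneg _) two_ne_zero).mp h1
  have hRx : ∀ v, Fintype.linearCombination ℝ x (R v) = v := fun v => LinearMap.congr_fun hR v
  set G : V →ₗ[ℝ] V := (Fintype.linearCombination ℝ y).comp R with hG
  have hGn : ∀ v, ‖G v‖ = ‖v‖ := by
    intro v
    rw [hG, LinearMap.comp_apply, hnorm, hRx]
  let L : V →ₗᵢ[ℝ] V := ⟨G, hGn⟩
  refine ⟨L.toLinearIsometryEquiv rfl, fun i => ?_⟩
  have h2 : (L.toLinearIsometryEquiv rfl) (x i) = G (x i) := rfl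
  rw [h2]
  have h3 : Fintype.linearCombination ℝ x (R (x i) - Pi.single i 1) = 0 := by
    rw [map_sub, hRx]
    simp
  have h4 : Fintype.linearCombination ℝ y (R (x i) - Pi.single i 1) = 0 := by
    rw [← norm_eq_zero, hnorm, h3, norm_zero]
  rw [map_sub] at h4
  have h5 : G (x i) = Fintype.linearCombination ℝ y (R (x i)) := rfl
  rw [h5]
  have h6 : Fintype.linearCombination ℝ y (Pi.single i 1) = y i := by simp
  rw [h6] at h4
  exact (sub_eq_zero.mp h4).symm

end Pool.Agent.Helper35.Jam
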