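import Pool.Agent.Helper35.Jam.Local
import Pool.Agent.Helper35.Jam.Iso
set_option autoImplicit false
namespace Pool.Agent.Helper35.Jam
open Finset

/-- index type of the code -/
abbrev Ix := Fin 6 ⊕ (Fin 6 ⊕ Fin 6)

/-- the system of vectors from `B, a, z` -/
noncomputable def cfg (B a z : Fin 6 → E9) : Ix → E9
  | Sum.inl k => (1 / 2 : ℝ) • B k + a k
  | Sum.inr (Sum.inl k) => (1 / 2 : ℝ) • B k - a k
  | Sum.inr (Sum.inr k) => z k

noncomputable def X0 : Ix → E9 := cfg B0 a0 z0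

/-- bilinear expansions -/
theorem exp_PP (b1 a1 b2 a2 : E9) : inner ℝ ((1 / 2 : ℝ) • b1 + a1) ((1 / 2 : ℝ) • b2 + a2) =
    inner ℝ b1 b2 / 4 + inner ℝ a1 a2 + (inner ℝ b1 a2 + inner ℝ a1 b2) / 2 := by
  simp only [inner_add_left, inner_add_right, inner_smul_left, inner_smul_right,
    RCLike.conj_to_real]
  ring
theorem exp_PQ (b1 a1 b2 a2 : E9) : inner ℝ ((1 / 2 : ℝ) • b1 + a1) ((1 / 2 : ℝ) • b2 - a2) =
    inner ℝ b1 b2 / 4 - inner ℝ a1 a2 + (-inner ℝ b1 a2 + inner ℝ a1 b2) / 2 := by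
  simp only [inner_add_left, inner_sub_right, inner_smul_left, inner_smul_right,
    RCLike.conj_to_real]
  ring
theorem exp_QP (b1 a1 b2 a2 : E9) : inner ℝ ((1 / 2 : ℝ) • b1 - a1) ((1 / 2 : ℝ) • b2 + a2) =
    inner ℝ b1 b2 / 4 - inner ℝ a1 a2 + (inner ℝ b1 a2 - inner ℝ a1 b2) / 2 := by
  simp only [inner_sub_left, inner_add_right, inner_smul_left, inner_smul_right,
    RCLike.conj_to_real]
  ring
theorem exp_QQ (b1 a1 b2 a2 : E9) : inner ℝ ((1 / 2 : ℝ) • b1 - a1) ((1 / 2 : ℝ) • b2 - a2) =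
    inner ℝ b1 b2 / 4 + inner ℝ a1 a2 - (inner ℝ b1 a2 + inner ℝ a1 b2) / 2 := by
  simp only [inner_sub_left, inner_sub_right, inner_smul_left, inner_smul_right,
    RCLike.conj_to_real]
  ring
theorem exp_Pz (b1 a1 z : E9) : inner ℝ ((1 / 2 : ℝ) • b1 + a1) z =
    inner ℝ b1 z / 2 + inner ℝ a1 z := by
  simp only [inner_add_left, inner_smul_left, RCLike.conj_to_real]
  ring
theorem exp_Qz (b1 a1 z : E9) : inner ℝ ((1 / 2 : ℝ) • b1 - a1) z =
    inner ℝ b1 z / 2 - inner ℝ a1 z := by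
  simp only [inner_sub_left, inner_smul_left, RCLike.conj_to_real]
  ring
theorem exp_zP (b1 a1 z : E9) : inner ℝ z ((1 / 2 : ℝ) • b1 + a1) =
    inner ℝ b1 z / 2 + inner ℝ a1 z := by
  rw [real_inner_comm, exp_Pz]
theorem exp_zQ (b1 a1 z : E9) : inner ℝ z ((1 / 2 : ℝ) • b1 - a1) =
    inner ℝ b1 z / 2 - inner ℝ a1 z := by
  rw [real_inner_comm, exp_Qz]

/-- equality of Gram matrices -/
theorem gram_eq (B a z B' a' z' : Fin 6 → E9) (h : StdGram B a z) (h' : StdGram B' a' z')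
    (s t : Ix) : inner ℝ (cfg B a z s) (cfg B a z t) = inner ℝ (cfg B' a' z' s) (cfg B' a' z' t) := by
  have hBa : ∀ k l, inner ℝ (B k) (a l) = 0 := fun k l => by rw [real_inner_comm, h.aB]
  have hBa' : ∀ k l, inner ℝ (B' k) (a' l) = 0 := fun k l => by rw [real_inner_comm, h'.aB]
  rcases s with k | k | k <;> rcases t with l | l | l <;>
    simp only [cfg, exp_PP, exp_PQ, exp_QP, exp_QQ, exp_Pz, exp_Qz, exp_zP, exp_zQ,
      h.BB, h.aa, h.zz, h.Bz, h.aB, h.az, h'.BB, h'.aa, h'.zz, h'.Bz, h'.aB, h'.az, hBa, hBa']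

theorem vBB_lt : vBB < 4 * c := by
  have h1 := id_6
  have h2 := ig_pos
  have h3 := c_lt
  nlinarith

theorem spoke_lt : (-2 * be + eta * (1 + 5 * c)) / 2 < c := by
  rw [eta_c]
  have h1 := be_pos
  have h2 := c_lt
  nlinarith

theorem sg_cases (k l : Fin 6) (h : k ≠ l) : sg k l = 1 ∨ sg k l = -1 := by
  have := sg_sq k l h
  have h2 : (sg k l - 1) * (sg k l + 1) = 0 := by linarith
  rcases mul_eq_zero.mp h2 with h3 | h3
  · left; linarith
  · right; linarith

theorem Ba0 (k l : Fin 6) : inner ℝ (B0 k) (a0 l) = 0 := by rw [real_inner_comm, aB0]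
theorem Bz0 (k l : Fin 6) : inner ℝ (B0 k) (z0 l) =
    if k = l then -2 * be + eta * (1 + 5 * c) else 2 * c := by rw [real_inner_comm, zB0]

theorem X0_unit (s : Ix) : ‖X0 s‖ = 1 := by
  have h : ‖X0 s‖ ^ 2 = 1 := by
    rw [← real_inner_self_eq_norm_sq]
    rcases s with k | k | k <;>
      simp only [X0, cfg, exp_PP, exp_QQ, BB0, aa0, zz0, aB0, Ba0, if_true] <;> ring
  have h0 := norm_nonneg (X0 s)
  nlinarith

/-- off-diagonal values of the Gram matrix -/
theorem X0_le (s t : Ix) (h : s ≠ t) : inner ℝ (X0 s) (X0 t) ≤ c := by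
  have h1 := vBB_lt
  have h2 := spoke_lt
  rcases s with k | k | k <;> rcases t with l | l | l
  · have hkl : k ≠ l := fun e => h (by rw [e])
    simp only [X0, cfg, exp_PP, BB0, aa0, aB0, Ba0, if_neg hkl]
    rcases sg_cases k l hkl with e | e <;> rw [e] <;> linarith
  · by_cases hkl : k = l
    · subst hkl
      simp only [X0, cfg, exp_PQ, BB0, aa0, aB0, Ba0, if_true]
      linarith
    · simp only [X0, cfg, exp_PQ, BB0, aa0, aB0, Ba0, if_neg hkl]
      rcases sg_cases k l hkl with e | e <;> rw [e] <;> linarith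
  · simp only [X0, cfg, exp_Pz, Bz0, az0]
    split_ifs <;> linarith
  · by_cases hkl : k = l
    · subst hkl
      simp only [X0, cfg, exp_QP, BB0, aa0, aB0, Ba0, if_true]
      linarith
    · simp only [X0, cfg, exp_QP, BB0, aa0, aB0, Ba0, if_neg hkl]
      rcases sg_cases k l hkl with e | e <;> rw [e] <;> linarith
  · have hkl : k ≠ l := fun e => h (by rw [e])
    simp only [X0, cfg, exp_QQ, BB0, aa0, aB0, Ba0, if_neg hkl]
    rcases sg_cases k l hkl with e | e <;> rw [e] <;> linarith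
  · simp only [X0, cfg, exp_Qz, Bz0, az0]
    split_ifs <;> linarith
  · simp only [X0, cfg, exp_zP, Bz0, az0]
    split_ifs <;> linarith
  · simp only [X0, cfg, exp_zQ, Bz0, az0]
    split_ifs <;> linarith
  · have hkl : k ≠ l := fun e => h (by rw [e])
    simp only [X0, cfg, zz0, if_neg hkl]
    exact le_rfl

theorem X0_contact : inner ℝ (X0 (Sum.inr (Sum.inr 0))) (X0 (Sum.inr (Sum.inr 1))) = c := by
  simp [X0, cfg, zz0]

theorem X0_span : Submodule.span ℝ (Set.range X0) = ⊤ := by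
  rw [← Submodule.orthogonal_eq_bot_iff, Submodule.eq_bot_iff]
  intro x hx
  have h1 : ∀ s, inner ℝ (X0 s) x = 0 := fun s =>
    (Submodule.mem_orthogonal _ _).mp hx _ (Submodule.subset_span ⟨s, rfl⟩)
  have h2 : ∀ j, inner ℝ (z0 j) x = 0 := fun j => h1 (Sum.inr (Sum.inr j))
  have h3 : ∀ j, inner ℝ (a0 j) x = 0 := by
    intro j
    have e1 := h1 (Sum.inl j)
    have e2 := h1 (Sum.inr (Sum.inl j))
    simp only [X0, cfg, exp_Pz, exp_Qz] at e1 e2
    linarith
  exact ext_lohi x 0 (fun i => lo_zero_of x h3 i) (fun j => hi_zero_of x h2 j)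

/-- local rigidity of `X0` in terms of the Gram matrix -/
theorem X0_jammed : ∃ ε : ℝ, 0 < ε ∧ ∀ Y : Ix → E9, (∀ s, ‖Y s‖ = 1) →
    (∀ s, dist (Y s) (X0 s) < ε) → (∀ s t, s ≠ t → inner ℝ (Y s) (Y t) ≤ c) →
    ∃ G : E9 ≃ₗᵢ[ℝ] E9, ∀ s, Y s = G (X0 s) := by
  obtain ⟨ε, hε, hmain⟩ := local_rigid
  refine ⟨ε / 2, by positivity, fun Y hY1 hY2 hY3 => ?_⟩
  set B : Fin 6 → E9 := fun k => Y (Sum.inl k) + Y (Sum.inr (Sum.inl k)) with hB
  set a : Fin 6 → E9 := fun k => (1 / 2 : ℝ) • (Y (Sum.inl k) - Y (Sum.inr (Sum.inl k))) with ha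
  set z : Fin 6 → E9 := fun k => Y (Sum.inr (Sum.inr k)) with hz
  have hP : ∀ k, Y (Sum.inl k) = (1 / 2 : ℝ) • B k + a k := by
    intro k
    rw [hB, ha]
    module
  have hQ : ∀ k, Y (Sum.inr (Sum.inl k)) = (1 / 2 : ℝ) • B k - a k := by
    intro k
    rw [hB, ha]
    module
  have hcfg : ∀ s, Y s = cfg B a z s := by
    intro s
    rcases s with k | k | k
    · exact hP k
    · exact hQ k
    · rfl
  have n1 : ∀ k, ‖B k‖ ^ 2 / 4 + ‖a k‖ ^ 2 + inner ℝ (a k) (B k) = 1 := by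
    intro k
    have h1 : inner ℝ (Y (Sum.inl k)) (Y (Sum.inl k)) = 1 := by
      rw [real_inner_self_eq_norm_sq, hY1]; norm_num
    rw [hP k, exp_PP, real_inner_self_eq_norm_sq, real_inner_self_eq_norm_sq,
      real_inner_comm (a k) (B k)] at h1
    linarith
  have n2 : ∀ k, ‖B k‖ ^ 2 / 4 + ‖a k‖ ^ 2 - inner ℝ (a k) (B k) = 1 := by
    intro k
    have h1 : inner ℝ (Y (Sum.inr (Sum.inl k))) (Y (Sum.inr (Sum.inl k))) = 1 := by
      rw [real_inner_self_eq_norm_sq, hY1]; norm_num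
    rw [hQ k, exp_QQ, real_inner_self_eq_norm_sq, real_inner_self_eq_norm_sq,
      real_inner_comm (a k) (B k)] at h1
    linarith
  have hadm : Adm B a z := by
    refine ⟨fun k => ?_, fun k => ?_, fun k => ?_, fun k => ?_, fun k l hkl => ?_,
      fun k l hkl => ?_, fun k l hkl => ?_⟩
    · linarith [n1 k, n2 k]
    · linarith [n1 k, n2 k]
    · rw [hz]
      simp only [hY1]
      norm_num
    · have h1 := hY3 (Sum.inl k) (Sum.inr (Sum.inl k)) (by simp)
      rw [hP k, hQ k, exp_PQ, real_inner_self_eq_norm_sq, real_inner_self_eq_norm_sq,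
        real_inner_comm (a k) (B k)] at h1
      linarith
    · rcases sg_cases k l hkl with e | e
      · have h1 := hY3 (Sum.inl k) (Sum.inl l) (by simpa using hkl)
        have h2 := hY3 (Sum.inr (Sum.inl k)) (Sum.inr (Sum.inl l)) (by simpa using hkl)
        rw [hP k, hP l, exp_PP] at h1
        rw [hQ k, hQ l, exp_QQ] at h2
        rw [e, abs_le]
        constructor <;> linarith
      · have h1 := hY3 (Sum.inl k) (Sum.inr (Sum.inl l)) (by simp)
        have h2 := hY3 (Sum.inr (Sum.inl k)) (Sum.inl l) (by simp)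
        rw [hP k, hQ l, exp_PQ] at h1
        rw [hQ k, hP l, exp_QP] at h2
        rw [e, abs_le]
        constructor <;> linarith
    · exact hY3 (Sum.inr (Sum.inr k)) (Sum.inr (Sum.inr l)) (by simpa using hkl)
    · have h1 := hY3 (Sum.inl k) (Sum.inr (Sum.inr l)) (by simp)
      have h2 := hY3 (Sum.inr (Sum.inl k)) (Sum.inr (Sum.inr l)) (by simp)
      rw [hP k, exp_Pz] at h1
      rw [hQ k, exp_Qz] at h2
      rw [abs_le]
      constructor <;> linarith
  have d1 : ∀ k, dist (B k) (B0 k) < ε := by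
    intro k
    have e0 : B0 k = X0 (Sum.inl k) + X0 (Sum.inr (Sum.inl k)) := by
      simp only [X0, cfg]
      module
    rw [e0]
    calc dist (B k) _ ≤ dist (Y (Sum.inl k)) (X0 (Sum.inl k)) +
          dist (Y (Sum.inr (Sum.inl k))) (X0 (Sum.inr (Sum.inl k))) := dist_add_add_le _ _ _ _
      _ < ε := by linarith [hY2 (Sum.inl k), hY2 (Sum.inr (Sum.inl k))]
  have d2 : ∀ k, dist (a k) (a0 k) < ε := by
    intro k
    have e0 : a0 k = (1 / 2 : ℝ) • (X0 (Sum.inl k) - X0 (Sum.inr (Sum.inl k))) := by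
      simp only [X0, cfg]
      module
    rw [e0, ha, dist_smul₀]
    calc ‖(1 / 2 : ℝ)‖ * dist _ _ ≤ ‖(1 / 2 : ℝ)‖ * (dist (Y (Sum.inl k)) (X0 (Sum.inl k)) +
          dist (Y (Sum.inr (Sum.inl k))) (X0 (Sum.inr (Sum.inl k)))) := by
            apply mul_le_mul_of_nonneg_left (dist_sub_sub_le _ _ _ _) (norm_nonneg _)
      _ < ε := by
            have h1 : ‖(1 / 2 : ℝ)‖ = 1 / 2 := by norm_num
            rw [h1]
            linarith [hY2 (Sum.inl k), hY2 (Sum.inr (Sum.inl k))]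
  have d3 : ∀ k, dist (z k) (z0 k) < ε := by
    intro k
    have := hY2 (Sum.inr (Sum.inr k))
    have e0 : X0 (Sum.inr (Sum.inr k)) = z0 k := rfl
    rw [e0] at this
    linarith
  have hstd := hmain B a z hadm d1 d2 d3
  refine exists_isometry X0 Y (fun s t => ?_) X0_span
  rw [hcfg s, hcfg t]
  exact gram_eq _ _ _ _ _ _ hstd std0 s t

end Pool.Agent.Helper35.Jam
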