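import Pool.Agent.Helper35.Jam.Alg
set_option autoImplicit false
namespace Pool.Agent.Helper35.Jam
open Finset Filter Topology

abbrev E9 := EuclideanSpace ℝ (Fin 9)

/-- vector with given first three and last six coordinates -/
noncomputable def mk (u : Fin 3 → ℝ) (v : Fin 6 → ℝ) : E9 :=
  WithLp.toLp 2 (Fin.append u v : Fin (3 + 6) → ℝ)

def lo (x : E9) (i : Fin 3) : ℝ := x (Fin.castAdd 6 i : Fin (3 + 6))
def hi (x : E9) (j : Fin 6) : ℝ := x (Fin.natAdd 3 j : Fin (3 + 6))

@[simp] theorem lo_mk (u : Fin 3 → ℝ) (v : Fin 6 → ℝ) (i : Fin 3) : lo (mk u v) i = u i := by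
  unfold lo mk
  exact Fin.append_left u v i

@[simp] theorem hi_mk (u : Fin 3 → ℝ) (v : Fin 6 → ℝ) (i : Fin 6) : hi (mk u v) i = v i := by
  unfold hi mk
  exact Fin.append_right u v i

theorem inner_lohi (x y : E9) :
    inner ℝ x y = ∑ i, lo x i * lo y i + ∑ j, hi x j * hi y j := by
  have h : inner ℝ x y = ∑ i : Fin 9, x i * y i := by
    rw [PiLp.inner_apply]
    refine Finset.sum_congr rfl fun i _ => ?_
    simp [mul_comm]
  rw [h]
  exact Fin.sum_univ_add (a := 3) (b := 6) (fun i : Fin (3 + 6) => x i * y i)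

theorem ext_lohi (x y : E9) (h1 : ∀ i, lo x i = lo y i) (h2 : ∀ j, hi x j = hi y j) : x = y := by
  ext i
  have h : ∀ i : Fin (3 + 6), (fun i : Fin (3 + 6) => x i) i = (fun i : Fin (3 + 6) => y i) i := by
    intro i
    refine Fin.addCases (m := 3) (n := 6)
      (motive := fun i => (fun i : Fin (3 + 6) => x i) i = (fun i : Fin (3 + 6) => y i) i)
      (fun j => h1 j) (fun j => h2 j) i
  exact h i

@[simp] theorem lo_add (x y : E9) (i : Fin 3) : lo (x + y) i = lo x i + lo y i := rfl
@[simp] theorem hi_add (x y : E9) (i : Fin 6) : hi (x + y) i = hi x i + hi y i := rfl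
@[simp] theorem lo_sub (x y : E9) (i : Fin 3) : lo (x - y) i = lo x i - lo y i := rfl
@[simp] theorem hi_sub (x y : E9) (i : Fin 6) : hi (x - y) i = hi x i - hi y i := rfl
@[simp] theorem lo_smul (r : ℝ) (x : E9) (i : Fin 3) : lo (r • x) i = r * lo x i := rfl
@[simp] theorem hi_smul (r : ℝ) (x : E9) (i : Fin 6) : hi (r • x) i = r * hi x i := rfl
@[simp] theorem lo_zero (i : Fin 3) : lo 0 i = 0 := rfl
@[simp] theorem hi_zero (i : Fin 6) : hi 0 i = 0 := rfl

theorem lo_sum {ι : Type*} (s : Finset ι) (f : ι → E9) (i : Fin 3) :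
    lo (∑ k ∈ s, f k) i = ∑ k ∈ s, lo (f k) i := by
  classical
  induction s using Finset.induction_on with
  | empty => simp
  | insert a s ha ih => rw [Finset.sum_insert ha, Finset.sum_insert ha, lo_add, ih]

theorem hi_sum {ι : Type*} (s : Finset ι) (f : ι → E9) (i : Fin 6) :
    hi (∑ k ∈ s, f k) i = ∑ k ∈ s, hi (f k) i := by
  classical
  induction s using Finset.induction_on with
  | empty => simp
  | insert a s ha ih => rw [Finset.sum_insert ha, Finset.sum_insert ha, hi_add, ih]

theorem normsq_lohi (x : E9) : ‖x‖ ^ 2 = ∑ i, lo x i ^ 2 + ∑ j, hi x j ^ 2 := by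
  rw [← real_inner_self_eq_norm_sq, inner_lohi]
  simp only [sq]

noncomputable def ss : ℝ := Real.sqrt (1 - c)
noncomputable def hh : ℝ := Real.sqrt (1 + 5 * c)
noncomputable def bb : ℝ := (hh - ss) / 6
noncomputable def rr : ℝ := Real.sqrt ((1 - c) / (10 * be ^ 2))

theorem ss_sq : ss ^ 2 = 1 - c := Real.sq_sqrt (by linarith [c_lt])
theorem hh_sq : hh ^ 2 = 1 + 5 * c := Real.sq_sqrt (by linarith [c_pos])
theorem ss_pos : 0 < ss := Real.sqrt_pos.mpr (by linarith [c_lt])
theorem hh_pos : 0 < hh := Real.sqrt_pos.mpr (by linarith [c_pos])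
theorem rr_sq : rr ^ 2 * (10 * be ^ 2) = 1 - c := by
  have := be2_gt
  unfold rr
  rw [Real.sq_sqrt, div_mul_cancel₀]
  · linarith
  · apply div_nonneg <;> linarith [c_lt]
theorem rr_pos : 0 < rr := by
  have := be2_gt
  apply Real.sqrt_pos.mpr
  apply div_pos <;> linarith [c_lt]
theorem bb_eq : 6 * bb ^ 2 + 2 * bb * ss = c := by
  have h1 := ss_sq
  have h2 := hh_sq
  unfold bb
  linear_combination (1 / 6) * h2 - (1 / 6) * h1

noncomputable def z0 (j : Fin 6) : E9 := mk (fun _ => 0) (fun i => bb + if i = j then ss else 0)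
noncomputable def a0 (k : Fin 6) : E9 := mk (fun i => rr * Yv k i) (fun _ => 0)
noncomputable def B0 (k : Fin 6) : E9 := eta • ∑ l, z0 l - (2 * be) • z0 k

theorem wv0 (k : Fin 6) : wv B0 z0 k = 0 := by
  unfold wv B0
  abel

theorem inner_z0 (j : Fin 6) (x : E9) :
    inner ℝ (z0 j) x = bb * ∑ i, hi x i + ss * hi x j := by
  rw [inner_lohi]
  unfold z0
  simp only [lo_mk, hi_mk, zero_mul, Finset.sum_const_zero, zero_add, add_mul, ite_mul,
    Finset.sum_add_distrib, Finset.sum_ite_eq', Finset.mem_univ, if_true, ← Finset.mul_sum]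

theorem inner_a0 (k : Fin 6) (x : E9) : inner ℝ (a0 k) x = rr * dt (Yv k) (lo x) := by
  rw [inner_lohi]
  unfold a0 dt
  simp only [lo_mk, hi_mk, zero_mul, Finset.sum_const_zero, add_zero, Finset.mul_sum]
  exact Finset.sum_congr rfl fun i _ => by ring

theorem zz0 (k l : Fin 6) : inner ℝ (z0 k) (z0 l) = if k = l then 1 else c := by
  rw [inner_z0]
  have h1 : ∑ i, hi (z0 l) i = 6 * bb + ss := by
    unfold z0
    simp [Finset.sum_add_distrib]
  have h2 : hi (z0 l) k = bb + if k = l then ss else 0 := by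
    unfold z0
    simp
  rw [h1, h2]
  have h3 := bb_eq
  have h4 := ss_sq
  split_ifs
  · linear_combination h3 + h4
  · linear_combination h3

theorem sum_ite_off' (k : Fin 6) (x y : ℝ) : ∑ l, (if k = l then x else y) = x + 5 * y := by
  have := sum_ite_off k x y
  simp only [eq_comm (a := k)]
  exact this

theorem zB0 (k l : Fin 6) : inner ℝ (z0 k) (B0 l) =
    if l = k then -2 * be + eta * (1 + 5 * c) else 2 * c := by
  unfold B0
  rw [inner_sub_right, inner_smul_right, inner_smul_right, inner_sum]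
  simp only [zz0, sum_ite_off']
  have h := eta_c
  by_cases hkl : k = l
  · rw [if_pos hkl, if_pos hkl.symm]
    ring
  · rw [if_neg hkl, if_neg (Ne.symm hkl)]
    linear_combination h

theorem BB0 (k l : Fin 6) : inner ℝ (B0 k) (B0 l) = if k = l then 2 * (1 + c) else vBB := by
  conv_lhs => rw [show B0 k = eta • ∑ l, z0 l - (2 * be) • z0 k from rfl]
  rw [inner_sub_left, inner_smul_left, inner_smul_left, sum_inner]
  simp only [zB0, sum_ite_off', RCLike.conj_to_real]
  have h := id_5
  have h2 := ta_eq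
  unfold vBB
  by_cases hkl : k = l
  · rw [if_pos hkl, if_pos hkl.symm]
    rw [h2] at h
    linear_combination (-1) * h
  · rw [if_neg hkl, if_neg (Ne.symm hkl)]
    ring

theorem ig_ph : ph = 5 * be ^ 2 * ig := by
  unfold ph ig
  linear_combination (-2) * be_quart

theorem lo_a0 (k : Fin 6) (i : Fin 3) : lo (a0 k) i = rr * Yv k i := by
  unfold a0
  simp

theorem aa0 (k l : Fin 6) : inner ℝ (a0 k) (a0 l) =
    if k = l then (1 - c) / 2 else sg k l * (c - vBB / 4) := by
  have h1 : dt (Yv k) (lo (a0 l)) = rr * dt (Yv k) (Yv l) := by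
    simp only [dt3, lo_a0]
    ring
  rw [inner_a0, h1]
  have h2 := rr_sq
  have h3 := id_6
  by_cases hkl : k = l
  · subst hkl
    rw [if_pos rfl, Y_self]
    linear_combination (1 / 2) * h2
  · rw [if_neg hkl, Y_dot k l hkl, ig_ph]
    linear_combination (1 / 2) * ig * sg k l * h2 - sg k l * h3

theorem az0 (k l : Fin 6) : inner ℝ (a0 k) (z0 l) = 0 := by
  rw [inner_a0]
  unfold z0
  simp [dt3]

theorem aB0 (k l : Fin 6) : inner ℝ (a0 k) (B0 l) = 0 := by
  unfold B0
  rw [inner_sub_right, inner_smul_right, inner_smul_right, inner_sum]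
  simp only [az0]
  simp

theorem std0 : StdGram B0 a0 z0 where
  BB := BB0
  aa := aa0
  zz := zz0
  Bz := fun k l => by
    rw [real_inner_comm, zB0]
  aB := aB0
  az := az0

theorem hi_zero_of (x : E9) (h : ∀ j, inner ℝ (z0 j) x = 0) (j : Fin 6) : hi x j = 0 := by
  have h1 : ∀ j, bb * ∑ i, hi x i + ss * hi x j = 0 := fun j => by rw [← inner_z0]; exact h j
  have h2 : ∑ j, (bb * ∑ i, hi x i + ss * hi x j) = 0 := by simp [h1]
  rw [Finset.sum_add_distrib, ← Finset.mul_sum, ← Finset.mul_sum] at h2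
  simp only [Finset.sum_const, Finset.card_univ, Fintype.card_fin] at h2
  have h3 : hh * ∑ i, hi x i = 0 := by
    have : hh = 6 * bb + ss := by unfold bb; ring
    rw [this]
    rw [nsmul_eq_mul] at h2
    push_cast at h2
    linarith
  have h4 : ∑ i, hi x i = 0 := (mul_eq_zero.mp h3).resolve_left hh_pos.ne'
  have h5 := h1 j
  rw [h4, mul_zero, zero_add] at h5
  exact (mul_eq_zero.mp h5).resolve_left ss_pos.ne'

theorem lo_zero_of (x : E9) (h : ∀ j, inner ℝ (a0 j) x = 0) (i : Fin 3) : lo x i = 0 := by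
  have h1 : ∀ j, dt (Yv j) (lo x) = 0 := fun j => by
    have := h j
    rw [inner_a0] at this
    exact (mul_eq_zero.mp this).resolve_left rr_pos.ne'
  have h2 := Y_frame (lo x) i
  simp only [h1, zero_mul, Finset.sum_const_zero] at h2
  have h3 := be2_gt
  rcases mul_eq_zero.mp h2.symm with h4 | h4
  · linarith
  · exact h4

end Pool.Agent.Helper35.Jam
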