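import Mathlib

set_option autoImplicit false

namespace Pool.Agent.Helper35.Jam

/-- The number `sqrt ((5 + sqrt 5) / 10)`. -/
noncomputable def be : ℝ := Real.sqrt ((5 + Real.sqrt 5) / 10)

theorem be_sq : be ^ 2 = (5 + Real.sqrt 5) / 10 := by
  unfold be
  rw [Real.sq_sqrt]
  positivity

theorem be_nonneg : 0 ≤ be := Real.sqrt_nonneg _

theorem be_quart : 5 * be ^ 4 - 5 * be ^ 2 + 1 = 0 := by
  have h5 : Real.sqrt 5 ^ 2 = 5 := Real.sq_sqrt (by norm_num)
  have h := be_sq
  have h4 : be ^ 4 = ((5 + Real.sqrt 5) / 10) ^ 2 := by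
    rw [← h]; ring
  rw [h4, h]
  nlinarith [h5]

theorem sqrt5_gt : 2.236067 < Real.sqrt 5 := by
  apply Real.lt_sqrt_of_sq_lt
  norm_num

theorem sqrt5_lt : Real.sqrt 5 < 2.236069 := by
  rw [Real.sqrt_lt' (by norm_num)]
  norm_num

theorem be_gt : 0.85065 < be := by
  unfold be
  apply Real.lt_sqrt_of_sq_lt
  have := sqrt5_gt
  norm_num at *
  linarith

theorem be_lt : be < 0.850652 := by
  unfold be
  rw [Real.sqrt_lt' (by norm_num)]
  have := sqrt5_lt
  norm_num at *
  linarith

/-- `g = sqrt 5`, written as a polynomial in `be`. -/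
noncomputable def g : ℝ := 10 * be ^ 2 - 5
/-- `ig = 1 / sqrt 5`. -/
noncomputable def ig : ℝ := 2 * be ^ 2 - 1
/-- The golden ratio. -/
noncomputable def ph : ℝ := 5 * be ^ 2 - 2
noncomputable def eta : ℝ := -5 * be ^ 3 + 5 * be ^ 2 + 2 * be - 2
noncomputable def ta : ℝ := 5 * be ^ 3 - 5 * be ^ 2 + 2
noncomputable def ka : ℝ := 30 * be ^ 3 - 30 * be ^ 2 - 10 * be + 12
/-- The inner product of contacts. -/
noncomputable def c : ℝ := 1 / (40 * be ^ 3 + 30 * be ^ 2 - 20 * be - 19)
/-- weights -/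
noncomputable def wp : ℝ := 2 * ta
noncomputable def wq : ℝ := 2 * g
noncomputable def wd : ℝ := 2 * be * ka
noncomputable def we : ℝ := 2 * be * ka * (2 * be - 5 * eta)

theorem g_def : g = 10 * be ^ 2 - 5 := rfl

theorem g_sq : g ^ 2 = 5 := by
  unfold g
  nlinarith [be_quart]

theorem g_ig : g * ig = 1 := by
  unfold g ig
  nlinarith [be_quart]

theorem ig_sq : 5 * ig ^ 2 = 1 := by
  unfold ig
  nlinarith [be_quart]

theorem ph_sq : ph ^ 2 = ph + 1 := by
  unfold ph
  nlinarith [be_quart]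

theorem be2_gt : 0.7236 < be ^ 2 := by nlinarith [be_gt]
theorem be2_lt : be ^ 2 < 0.72361 := by nlinarith [be_lt, be_gt]
theorem be3_gt : 0.6155 < be ^ 3 := by
  have h1 := be_gt
  have h2 := be2_gt
  have : be ^ 3 = be ^ 2 * be := by ring
  rw [this]
  nlinarith
theorem be3_lt : be ^ 3 < 0.61555 := by
  have h1 := be_gt
  have h2 := be2_gt
  have h3 := be_lt
  have h4 := be2_lt
  have : be ^ 3 = be ^ 2 * be := by ring
  rw [this]
  nlinarith

theorem be_pos : 0 < be := by linarith [be_gt]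

theorem g_gt : 2.236 < g := by unfold g; linarith [be2_gt]
theorem g_lt : g < 2.2361 := by unfold g; linarith [be2_lt]
theorem ig_pos : 0 < ig := by unfold ig; linarith [be2_gt]
theorem ph_gt : 1.618 ≤ ph := by unfold ph; linarith [be2_gt]

theorem den_gt : 10.3 < 40 * be ^ 3 + 30 * be ^ 2 - 20 * be - 19 := by
  have h1 := be3_gt
  have h2 := be2_gt
  have h3 := be_lt
  norm_num at *
  linarith

theorem den_lt : 40 * be ^ 3 + 30 * be ^ 2 - 20 * be - 19 < 10.4 := by
  have h1 := be3_lt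
  have h2 := be2_lt
  have h3 := be_gt
  norm_num at *
  linarith

theorem c_den : c * (40 * be ^ 3 + 30 * be ^ 2 - 20 * be - 19) = 1 := by
  unfold c
  have := den_gt
  have h : (40 * be ^ 3 + 30 * be ^ 2 - 20 * be - 19) ≠ 0 := by linarith
  exact one_div_mul_cancel h

theorem c_pos : 0 < c := by
  unfold c
  have := den_gt
  apply one_div_pos.mpr
  linarith

theorem c_lt : c < 0.1 := by
  have h := c_den
  have h1 := den_gt
  have h2 := c_pos
  nlinarith

theorem c_gt : 0.09 < c := by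
  have h := c_den
  have h1 := den_lt
  have h2 := c_pos
  nlinarith

theorem ta_pos : 1 < ta := by
  unfold ta
  have h1 := be3_gt
  have h2 := be2_lt
  norm_num at *
  linarith

theorem ka_pos : 0 < ka := by
  unfold ka
  have h1 := be3_gt
  have h2 := be2_lt
  have h3 := be_lt
  norm_num at *
  linarith

theorem eta_pos : 0 < eta := by
  unfold eta
  have h1 := be3_lt
  have h2 := be2_gt
  have h3 := be_gt
  norm_num at *
  linarith

theorem eta_lt : eta < 0.25 := by
  unfold eta
  have h1 := be3_gt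
  have h2 := be2_lt
  have h3 := be_lt
  norm_num at *
  linarith

theorem wq_pos : 0 < wq := by unfold wq; linarith [g_gt]
theorem wp_pos : 0 < wp := by unfold wp; linarith [ta_pos]
theorem wd_pos : 0 < wd := by
  unfold wd
  have := be_pos
  have := ka_pos
  positivity
theorem we_pos : 0 < we := by
  unfold we
  have h1 := be_pos
  have h2 := ka_pos
  have h3 := eta_lt
  have h4 := be_gt
  have : 0 < 2 * be - 5 * eta := by norm_num at *; linarith
  positivity

/-- `ta = 2 be - eta`. -/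
theorem ta_eq : ta = 2 * be - eta := by unfold ta eta; ring
theorem ka_eq : ka = 2 * be - 6 * eta := by unfold ka eta; ring
/-- `eta (1 + be) = 1 / sqrt 5`. -/
theorem eta_mul : eta * (1 + be) = ig := by
  unfold eta ig
  linear_combination (-1) * be_quart
theorem eta_c : eta * (1 + 5 * c) = 2 * c * (1 + be) := by
  unfold eta
  linear_combination (-(-2 + 2 * be + 5 * be ^ 2 - 5 * be ^ 3)) * c_den +
    c * (26 + 10 * be - 40 * be ^ 2) * be_quart

theorem id_q : wq = (1 + g) * ta - ka := by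
  unfold wq g ta ka
  linear_combination (10 - 10 * be) * be_quart

theorem id_D1 : c * (5 * wp + wq + 5 * wd) = (g - 1) * ta + ka := by
  unfold wp wq wd g ta ka
  linear_combination (-(10 * be - 20 * be ^ 2 + 50 * be ^ 4 - 50 * be ^ 5)) * c_den +
    c * (10 - 70 * be + 100 * be ^ 2 + 100 * be ^ 3 - 400 * be ^ 4) * be_quart

theorem id_D2 : c * (5 * we + 10 * wd) = 4 * be ^ 2 * ka - we := by
  unfold we wd eta ka
  linear_combination (-(240 * be - 440 * be ^ 2 - 1000 * be ^ 3 + 2300 * be ^ 4 + 400 * be ^ 5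
    - 3000 * be ^ 6 + 1500 * be ^ 7)) * c_den +
    c * (-3120 * be + 1400 * be ^ 2 + 13600 * be ^ 3 - 8800 * be ^ 4 - 15000 * be ^ 5
      + 12000 * be ^ 6) * be_quart

theorem id_5 : 2 * (1 + c) - 10 * eta * c - ta * (2 * be - eta * (1 + 5 * c)) = 0 := by
  unfold eta ta
  linear_combination (-(-2 + 20 * be ^ 2 - 20 * be ^ 3 - 25 * be ^ 4 + 50 * be ^ 5
    - 25 * be ^ 6)) * c_den +
    c * (40 + 40 * be - 190 * be ^ 2 + 250 * be ^ 4 - 200 * be ^ 5) * be_quart

/-- The common value of the inner products `B_k . B_l`. -/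
noncomputable def vBB : ℝ := -4 * be * c + eta * (10 * c + (-2 * be + eta * (1 + 5 * c)))

theorem vBB_eq : vBB = -4 * be * c + eta * (10 * c + (-2 * be + 2 * c * (1 + be))) := by
  unfold vBB
  rw [eta_c]

theorem id_6 : c - 1 / 4 * vBB = (1 - c) / 2 * ig := by
  rw [vBB_eq]
  unfold eta ig
  linear_combination (-(1 / 2 - be + 5 / 2 * be ^ 3 - 5 / 2 * be ^ 4)) * c_den +
    c * (-3 + 5 * be + 5 * be ^ 2 - 20 * be ^ 3) * be_quart

end Pool.Agent.Helper35.Jam
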