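import Pool.Agent.Helper35.Jam.Code
set_option autoImplicit false
namespace Pool.Agent.Helper35.Jam
open Finset

/-- the parameter vector of the flex -/
def uu : Fin 3 → ℝ := ![0, 0, 1]

noncomputable def muk (k : Fin 6) : ℝ := rr * (cm * dt (Yv k) uu)

/-- velocity of `B_k` -/
noncomputable def nv (k : Fin 6) : E9 :=
  mk (fun i => cal * uu i + cb * dt (Yv k) uu * Yv k i) (fun _ => 0)
/-- velocity of `a_k` -/
noncomputable def av (k : Fin 6) : E9 :=
  mk (fun _ => 0) (fun i => muk k / ss * ((if i = k then 1 else 0) - bb / hh))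

/-- the flex -/
noncomputable def fl : Ix → E9 := cfg nv av (fun _ => 0)

theorem z_av (j k : Fin 6) : inner ℝ (z0 j) (av k) = if j = k then muk k else 0 := by
  rw [inner_z0]
  unfold av
  simp only [hi_mk]
  rw [← Finset.mul_sum, Finset.sum_sub_distrib]
  simp only [Finset.sum_ite_eq', Finset.mem_univ, if_true, Finset.sum_const, Finset.card_univ,
    Fintype.card_fin, nsmul_eq_mul]
  have h1 := ss_pos.ne'
  have h2 := hh_pos.ne'
  have h3 : hh = 6 * bb + ss := by unfold bb; ring
  have h4 : (1 : ℝ) - ((6 : ℕ) : ℝ) * (bb / hh) = ss / hh := by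
    field_simp
    push_cast
    linarith
  rw [h4]
  split_ifs <;> field_simp <;> ring

theorem z_nv (j k : Fin 6) : inner ℝ (z0 j) (nv k) = 0 := by
  rw [inner_z0]
  unfold nv
  simp

theorem B_nv (j k : Fin 6) : inner ℝ (B0 j) (nv k) = 0 := by
  unfold B0
  rw [inner_sub_left, inner_smul_left, inner_smul_left, sum_inner]
  simp [z_nv]

theorem a_av (j k : Fin 6) : inner ℝ (a0 j) (av k) = 0 := by
  rw [inner_a0]
  unfold av
  simp [dt3]

theorem a_nv (j k : Fin 6) : inner ℝ (a0 j) (nv k) =
    rr * (cal * dt (Yv j) uu + cb * dt (Yv k) uu * dt (Yv j) (Yv k)) := by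
  rw [inner_a0]
  unfold nv
  have : dt (Yv j) (lo (mk (fun i => cal * uu i + cb * dt (Yv k) uu * Yv k i) (fun _ => 0))) =
      cal * dt (Yv j) uu + cb * dt (Yv k) uu * dt (Yv j) (Yv k) := by
    simp only [dt3, lo_mk]
    ring
  rw [this]

theorem B_av (j k : Fin 6) : inner ℝ (B0 j) (av k) =
    eta * muk k - 2 * be * (if j = k then muk k else 0) := by
  unfold B0
  rw [inner_sub_left, inner_smul_left, inner_smul_left, sum_inner]
  simp only [z_av, Finset.sum_ite_eq', Finset.mem_univ, if_true, RCLike.conj_to_real]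

/-- derivative of `<B_k, a_l>` -/
noncomputable def GG (k l : Fin 6) : ℝ := inner ℝ (a0 l) (nv k) + inner ℝ (B0 k) (av l)

theorem GG_diag (k : Fin 6) : GG k k = 0 := by
  unfold GG
  rw [a_nv, B_av, Y_self, if_pos rfl]
  unfold muk
  have h1 := i9
  have h2 := ta_eq
  rw [h2] at h1
  linear_combination rr * dt (Yv k) uu * h1

theorem GG_off (k l : Fin 6) (h : k ≠ l) : sg k l * GG k l + GG l k = 0 := by
  unfold GG
  rw [a_nv, a_nv, B_av, B_av, Y_dot k l h, Y_dot l k h.symm, if_neg h, if_neg h.symm, sg_symm l k]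
  unfold muk
  have h1 := i8
  have h2 := sg_sq k l h
  linear_combination rr * (dt (Yv k) uu + sg k l * dt (Yv l) uu) * h1 +
    rr * cb * ph * dt (Yv k) uu * h2

/-- the derivative of the inner product -/
noncomputable def dG (s t : Ix) : ℝ := inner ℝ (X0 s) (fl t) + inner ℝ (fl s) (X0 t)

theorem fl_unit (s : Ix) : inner ℝ (X0 s) (fl s) = 0 := by
  have hG : ∀ k, inner ℝ (B0 k) (av k) + inner ℝ (a0 k) (nv k) = 0 := fun k => by
    have := GG_diag k
    unfold GG at this
    linarith
  rcases s with k | k | k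
  · simp only [X0, fl, cfg, exp_PP, B_nv, a_av]
    linarith [hG k]
  · simp only [X0, fl, cfg, exp_QQ, B_nv, a_av]
    linarith [hG k]
  · simp [X0, fl, cfg]

theorem dG_contact (s t : Ix) (hst : s ≠ t) (h : inner ℝ (X0 s) (X0 t) = c) : dG s t = 0 := by
  have h1 := vBB_lt
  have h2 := spoke_lt
  have nB : ∀ j k, inner ℝ (nv k) (B0 j) = 0 := fun j k => by rw [real_inner_comm, B_nv]
  have aa : ∀ j k, inner ℝ (av k) (a0 j) = 0 := fun j k => by rw [real_inner_comm, a_av]
  have na : ∀ j k, inner ℝ (nv k) (a0 j) = inner ℝ (a0 j) (nv k) := fun j k => real_inner_comm _ _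
  have aB : ∀ j k, inner ℝ (av k) (B0 j) = inner ℝ (B0 j) (av k) := fun j k => real_inner_comm _ _
  have nz : ∀ j k, inner ℝ (nv k) (z0 j) = 0 := fun j k => by rw [real_inner_comm, z_nv]
  have az : ∀ j k, inner ℝ (av k) (z0 j) = if j = k then muk k else 0 := fun j k => by
    rw [real_inner_comm, z_av]
  rcases s with k | k | k <;> rcases t with l | l | l
  · have hkl : k ≠ l := fun e => hst (by rw [e])
    simp only [X0, cfg, exp_PP, BB0, aa0, aB0, Ba0, if_neg hkl] at h
    have hG := GG_off k l hkl
    unfold GG at hG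
    simp only [dG, X0, fl, cfg, exp_PP, B_nv, a_av, nB, aa, na, aB]
    rcases sg_cases k l hkl with e | e
    · rw [e] at hG
      linarith
    · exfalso
      rw [e] at h
      linarith
  · by_cases hkl : k = l
    · subst hkl
      have hG := GG_diag k
      unfold GG at hG
      simp only [dG, X0, fl, cfg, exp_PQ, B_nv, a_av, nB, aa, na, aB]
      linarith
    · simp only [X0, cfg, exp_PQ, BB0, aa0, aB0, Ba0, if_neg hkl] at h
      have hG := GG_off k l hkl
      unfold GG at hG
      simp only [dG, X0, fl, cfg, exp_PQ, B_nv, a_av, nB, aa, na, aB]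
      rcases sg_cases k l hkl with e | e
      · exfalso
        rw [e] at h
        linarith
      · rw [e] at hG
        linarith
  · simp only [X0, cfg, exp_Pz, Bz0, az0] at h
    simp only [dG, X0, fl, cfg, inner_zero_right, exp_Pz, nz, az]
    by_cases hkl : k = l
    · exfalso
      rw [if_pos hkl] at h
      linarith
    · rw [if_neg (Ne.symm hkl)]
      norm_num
  · by_cases hkl : k = l
    · subst hkl
      have hG := GG_diag k
      unfold GG at hG
      simp only [dG, X0, fl, cfg, exp_QP, B_nv, a_av, nB, aa, na, aB]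
      linarith
    · simp only [X0, cfg, exp_QP, BB0, aa0, aB0, Ba0, if_neg hkl] at h
      have hG := GG_off k l hkl
      unfold GG at hG
      simp only [dG, X0, fl, cfg, exp_QP, B_nv, a_av, nB, aa, na, aB]
      rcases sg_cases k l hkl with e | e
      · exfalso
        rw [e] at h
        linarith
      · rw [e] at hG
        linarith
  · have hkl : k ≠ l := fun e => hst (by rw [e])
    simp only [X0, cfg, exp_QQ, BB0, aa0, aB0, Ba0, if_neg hkl] at h
    have hG := GG_off k l hkl
    unfold GG at hG
    simp only [dG, X0, fl, cfg, exp_QQ, B_nv, a_av, nB, aa, na, aB]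
    rcases sg_cases k l hkl with e | e
    · rw [e] at hG
      linarith
    · exfalso
      rw [e] at h
      linarith
  · simp only [X0, cfg, exp_Qz, Bz0, az0] at h
    simp only [dG, X0, fl, cfg, inner_zero_right, exp_Qz, nz, az]
    by_cases hkl : k = l
    · exfalso
      rw [if_pos hkl] at h
      linarith
    · rw [if_neg (Ne.symm hkl)]
      norm_num
  · simp only [X0, cfg, exp_zP, Bz0, az0] at h
    simp only [dG, X0, fl, cfg, inner_zero_left, exp_zP, nz, az]
    by_cases hkl : l = k
    · exfalso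
      rw [if_pos hkl] at h
      linarith
    · rw [if_neg (Ne.symm hkl)]
      norm_num
  · simp only [X0, cfg, exp_zQ, Bz0, az0] at h
    simp only [dG, X0, fl, cfg, inner_zero_left, exp_zQ, nz, az]
    by_cases hkl : l = k
    · exfalso
      rw [if_pos hkl] at h
      linarith
    · rw [if_neg (Ne.symm hkl)]
      norm_num
  · simp [dG, X0, fl, cfg]

theorem cm_pos : 0 < cm := by
  unfold cm
  have h1 := be3_gt
  have h2 := be2_gt
  have h3 := be_lt
  norm_num at *
  linarith

theorem dG_ne : dG (Sum.inl 0) (Sum.inr (Sum.inr 0)) ≠ 0 := by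
  have az : ∀ j k, inner ℝ (av k) (z0 j) = if j = k then muk k else 0 := fun j k => by
    rw [real_inner_comm, z_av]
  have nz : ∀ j k, inner ℝ (nv k) (z0 j) = 0 := fun j k => by rw [real_inner_comm, z_nv]
  simp only [dG, X0, fl, cfg, inner_zero_right, exp_Pz, nz, az, if_true]
  have h1 : muk 0 = rr * (cm * ph) := by
    unfold muk
    simp [dt3, Yv, uu]
  rw [h1]
  have := rr_pos
  have := cm_pos
  have := ph_gt
  have : 0 < rr * (cm * ph) := by positivity
  linarith

end Pool.Agent.Helper35.Jam
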