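import Pool.Agent.Helper35.Jam.Zero
set_option autoImplicit false
namespace Pool.Agent.Helper35.Jam
open Finset Filter Topology
variable {V : Type*} [NormedAddCommGroup V] [InnerProductSpace ℝ V]

/-- `f = o(τ)`. -/
def Sm (τ f : ℕ → ℝ) : Prop := Tendsto (fun n => (τ n)⁻¹ * f n) atTop (𝓝 0)

theorem Sm.add {τ f h : ℕ → ℝ} (hf : Sm τ f) (hh : Sm τ h) : Sm τ (fun n => f n + h n) := by
  have := Tendsto.add hf hh
  rw [add_zero] at this
  refine this.congr fun n => ?_
  ring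

theorem Sm.mul {τ f : ℕ → ℝ} (r : ℝ) (hf : Sm τ f) : Sm τ (fun n => r * f n) := by
  have := Tendsto.const_mul r hf
  rw [mul_zero] at this
  refine this.congr fun n => ?_
  ring

theorem Sm.sub {τ f h : ℕ → ℝ} (hf : Sm τ f) (hh : Sm τ h) : Sm τ (fun n => f n - h n) := by
  have := Tendsto.sub hf hh
  rw [sub_zero] at this
  refine this.congr fun n => ?_
  ring

theorem Sm.sum {ι : Type*} {τ : ℕ → ℝ} (s : Finset ι) (f : ι → ℕ → ℝ)
    (hf : ∀ i ∈ s, Sm τ (f i)) : Sm τ (fun n => ∑ i ∈ s, f i n) := by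
  have := tendsto_finsetSum s hf
  simp only [Finset.sum_const_zero] at this
  refine this.congr fun n => ?_
  rw [Finset.mul_sum]

theorem Sm.congr {τ f h : ℕ → ℝ} (hf : Sm τ f) (e : ∀ n, f n = h n) : Sm τ h := by
  have : f = h := funext e
  rwa [← this]

theorem Sm.of_bound {τ f : ℕ → ℝ} (K : ℝ) (hτ : ∀ n, 0 < τ n) (hτ0 : Tendsto τ atTop (𝓝 0))
    (hf : ∀ n, |f n| ≤ K * τ n ^ 2) : Sm τ f := by
  unfold Sm
  apply squeeze_zero_norm (a := fun n => K * τ n)
  · intro n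
    rw [norm_mul, Real.norm_eq_abs, Real.norm_eq_abs, abs_inv, abs_of_pos (hτ n)]
    have h1 := hτ n
    rw [inv_mul_le_iff₀ h1]
    calc |f n| ≤ K * τ n ^ 2 := hf n
      _ = τ n * (K * τ n) := by ring
  · have := Tendsto.const_mul K hτ0
    simpa using this

/-- Data of a converging sequence of admissible triples. -/
structure Seq (B a z : ℕ → Fin 6 → V) (B0 a0 z0 W C : Fin 6 → V) (τ : ℕ → ℝ) : Prop where
  adm : ∀ n, Adm (B n) (a n) (z n)
  hB : ∀ k, Tendsto (fun n => B n k) atTop (𝓝 (B0 k))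
  ha : ∀ k, Tendsto (fun n => a n k) atTop (𝓝 (a0 k))
  hz : ∀ k, Tendsto (fun n => z n k) atTop (𝓝 (z0 k))
  hB0 : ∀ k, wv B0 z0 k = 0
  ha0 : StdGram B0 a0 z0
  τpos : ∀ n, 0 < τ n
  τ0 : Tendsto τ atTop (𝓝 0)
  wle : ∀ n k, ‖wv (B n) (z n) k‖ ≤ τ n
  cle : ∀ n k, ‖cv (a n) k‖ ≤ τ n
  hW : ∀ k, Tendsto (fun n => (τ n)⁻¹ • wv (B n) (z n) k) atTop (𝓝 (W k))
  hC : ∀ k, Tendsto (fun n => (τ n)⁻¹ • cv (a n) k) atTop (𝓝 (C k))

variable {B a z : ℕ → Fin 6 → V} {B0 a0 z0 W C : Fin 6 → V} {τ : ℕ → ℝ}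

theorem inw (B z : Fin 6 → V) (u : V) (k : Fin 6) : inner ℝ u (wv B z k) =
      inner ℝ u (B k) + 2 * be * inner ℝ u (z k) - eta * ∑ l, inner ℝ u (z l) := by
  unfold wv
  rw [inner_sub_right, inner_add_right, inner_smul_right, inner_smul_right, inner_sum]

theorem inc (a : Fin 6 → V) (u : V) (k : Fin 6) : inner ℝ u (cv a k) =
      inner ℝ u (a k) - ig * ∑ l, sg k l * inner ℝ u (a l) := by
  unfold cv
  rw [inner_sub_right, inner_smul_right, inner_sum]
  simp only [inner_smul_right]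

theorem tot_nonneg (B a z : Fin 6 → V) (h : Adm B a z) : 0 ≤ tot B a z := by
  have n1 : ∀ k, 0 ≤ c - (‖B k‖ ^ 2 / 4 - ‖a k‖ ^ 2) := fun k => by linarith [h.h4 k]
  have n2 : ∀ k l, 0 ≤ off k l *
      (c - (inner ℝ (B k) (B l) / 4 + sg k l * inner ℝ (a k) (a l))) := by
    intro k l
    by_cases hkl : k = l
    · simp [off, hkl]
    · simp only [off, if_neg hkl, one_mul]
      exact le_trans (abs_nonneg _) (h.h5 k l hkl)
  have n3 : ∀ k l, 0 ≤ off k l * (c - inner ℝ (z k) (z l)) := by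
    intro k l
    by_cases hkl : k = l
    · simp [off, hkl]
    · simp only [off, if_neg hkl, one_mul]
      linarith [h.h6 k l hkl]
  have n4 : ∀ k l, 0 ≤ off k l * (c - inner ℝ (B k) (z l) / 2) := by
    intro k l
    by_cases hkl : k = l
    · simp [off, hkl]
    · simp only [off, if_neg hkl, one_mul]
      exact le_trans (abs_nonneg _) (h.h7 k l hkl)
  have s1 : 0 ≤ ∑ k, (c - (‖B k‖ ^ 2 / 4 - ‖a k‖ ^ 2)) := Finset.sum_nonneg fun k _ => n1 k
  have s2 : 0 ≤ ∑ k, ∑ l, off k l *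
      (c - (inner ℝ (B k) (B l) / 4 + sg k l * inner ℝ (a k) (a l))) :=
    Finset.sum_nonneg fun k _ => Finset.sum_nonneg fun l _ => n2 k l
  have s3 : 0 ≤ ∑ k, ∑ l, off k l * (c - inner ℝ (z k) (z l)) :=
    Finset.sum_nonneg fun k _ => Finset.sum_nonneg fun l _ => n3 k l
  have s4 : 0 ≤ ∑ k, ∑ l, off k l * (c - inner ℝ (B k) (z l) / 2) :=
    Finset.sum_nonneg fun k _ => Finset.sum_nonneg fun l _ => n4 k l
  have hwq := wq_pos
  have hwp := wp_pos
  have hwe := we_pos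
  have hwd := wd_pos
  unfold tot
  positivity

namespace Seq

theorem s1 (S : Seq B a z B0 a0 z0 W C τ) (k : Fin 6) :
    Sm τ (fun n => c - (‖B n k‖ ^ 2 / 4 - ‖a n k‖ ^ 2)) := by
  refine Sm.of_bound (MM / (2 * wq)) S.τpos S.τ0 fun n => ?_
  have hb := (slack_bounds _ _ _ (S.adm n) (τ n) (S.τpos n).le (S.wle n) (S.cle n)).1 k
  have hwq := wq_pos
  rw [abs_of_nonneg (by linarith [(S.adm n).h4 k]), div_mul_eq_mul_div, le_div_iff₀ (by positivity)]
  linarith

theorem s2 (S : Seq B a z B0 a0 z0 W C τ) (k l : Fin 6) (h : k ≠ l) :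
    Sm τ (fun n => c - (inner ℝ (B n k) (B n l) / 4 + sg k l * inner ℝ (a n k) (a n l))) := by
  refine Sm.of_bound (MM / (2 * wp)) S.τpos S.τ0 fun n => ?_
  have hb := (slack_bounds _ _ _ (S.adm n) (τ n) (S.τpos n).le (S.wle n) (S.cle n)).2.1 k l h
  have hwq := wp_pos
  rw [abs_of_nonneg (le_trans (abs_nonneg _) ((S.adm n).h5 k l h)), div_mul_eq_mul_div,
    le_div_iff₀ (by positivity)]
  linarith

theorem s2' (S : Seq B a z B0 a0 z0 W C τ) (k l : Fin 6) (h : k ≠ l) :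
    Sm τ (fun n => (sg k l * inner ℝ (B n k) (a n l) + inner ℝ (a n k) (B n l)) / 2) := by
  refine Sm.of_bound (MM / (2 * wp)) S.τpos S.τ0 fun n => ?_
  have hb := (slack_bounds _ _ _ (S.adm n) (τ n) (S.τpos n).le (S.wle n) (S.cle n)).2.1 k l h
  have hwq := wp_pos
  refine le_trans ((S.adm n).h5 k l h) ?_
  rw [div_mul_eq_mul_div, le_div_iff₀ (by positivity)]
  linarith

theorem s3 (S : Seq B a z B0 a0 z0 W C τ) (k l : Fin 6) (h : k ≠ l) :
    Sm τ (fun n => c - inner ℝ (z n k) (z n l)) := by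
  refine Sm.of_bound (MM / we) S.τpos S.τ0 fun n => ?_
  have hb := (slack_bounds _ _ _ (S.adm n) (τ n) (S.τpos n).le (S.wle n) (S.cle n)).2.2.1 k l h
  have hwq := we_pos
  rw [abs_of_nonneg (by linarith [(S.adm n).h6 k l h]), div_mul_eq_mul_div,
    le_div_iff₀ (by positivity)]
  linarith

theorem s4 (S : Seq B a z B0 a0 z0 W C τ) (k l : Fin 6) (h : k ≠ l) :
    Sm τ (fun n => c - inner ℝ (B n k) (z n l) / 2) := by
  refine Sm.of_bound (MM / (4 * wd)) S.τpos S.τ0 fun n => ?_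
  have hb := (slack_bounds _ _ _ (S.adm n) (τ n) (S.τpos n).le (S.wle n) (S.cle n)).2.2.2 k l h
  have hwq := wd_pos
  rw [abs_of_nonneg (le_trans (abs_nonneg _) ((S.adm n).h7 k l h)), div_mul_eq_mul_div,
    le_div_iff₀ (by positivity)]
  linarith

theorem s4' (S : Seq B a z B0 a0 z0 W C τ) (k l : Fin 6) (h : k ≠ l) :
    Sm τ (fun n => inner ℝ (a n k) (z n l)) := by
  refine Sm.of_bound (MM / (4 * wd)) S.τpos S.τ0 fun n => ?_
  have hb := (slack_bounds _ _ _ (S.adm n) (τ n) (S.τpos n).le (S.wle n) (S.cle n)).2.2.2 k l h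
  have hwq := wd_pos
  refine le_trans ((S.adm n).h7 k l h) ?_
  rw [div_mul_eq_mul_div, le_div_iff₀ (by positivity)]
  linarith

/-- `<z_k, z_l>` -/
theorem szz (S : Seq B a z B0 a0 z0 W C τ) (k l : Fin 6) :
    Sm τ (fun n => inner ℝ (z n k) (z n l) - if k = l then 1 else c) := by
  by_cases h : k = l
  · subst h
    refine Sm.of_bound 0 S.τpos S.τ0 fun n => ?_
    simp [(S.adm n).h3]
  · have h1 := (S.s3 k l h).mul (-1)
    refine h1.congr fun n => ?_
    rw [if_neg h]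
    ring

theorem sBz (S : Seq B a z B0 a0 z0 W C τ) (k l : Fin 6) (h : k ≠ l) :
    Sm τ (fun n => inner ℝ (B n k) (z n l) - 2 * c) := by
  have h1 := (S.s4 k l h).mul (-2)
  refine h1.congr fun n => ?_
  ring

theorem saa (S : Seq B a z B0 a0 z0 W C τ) (k : Fin 6) :
    Sm τ (fun n => ‖a n k‖ ^ 2 - (1 - c) / 2) := by
  have h1 := (S.s1 k).mul (1 / 2)
  refine h1.congr fun n => ?_
  have := (S.adm n).h2 k
  linear_combination (-1 / 2) * this

theorem sBB (S : Seq B a z B0 a0 z0 W C τ) (k : Fin 6) :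
    Sm τ (fun n => ‖B n k‖ ^ 2 - 2 * (1 + c)) := by
  have h1 := (S.s1 k).mul (-2)
  refine h1.congr fun n => ?_
  have := (S.adm n).h2 k
  linear_combination (-2) * this

/-- convergence of inner products with `w_k / τ` -/
theorem limw (S : Seq B a z B0 a0 z0 W C τ) (u : ℕ → V) (u0 : V)
    (hu : Tendsto u atTop (𝓝 u0)) (k : Fin 6) :
    Tendsto (fun n => (τ n)⁻¹ * inner ℝ (u n) (wv (B n) (z n) k)) atTop (𝓝 (inner ℝ u0 (W k))) := by
  have h1 := hu.inner (𝕜 := ℝ) (S.hW k)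
  refine h1.congr fun n => ?_
  rw [inner_smul_right]

theorem limc (S : Seq B a z B0 a0 z0 W C τ) (u : ℕ → V) (u0 : V)
    (hu : Tendsto u atTop (𝓝 u0)) (k : Fin 6) :
    Tendsto (fun n => (τ n)⁻¹ * inner ℝ (u n) (cv (a n) k)) atTop (𝓝 (inner ℝ u0 (C k))) := by
  have h1 := hu.inner (𝕜 := ℝ) (S.hC k)
  refine h1.congr fun n => ?_
  rw [inner_smul_right]

theorem eq_zero_of_limw (S : Seq B a z B0 a0 z0 W C τ) (u : ℕ → V) (u0 : V)
    (hu : Tendsto u atTop (𝓝 u0)) (k : Fin 6)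
    (h : Sm τ (fun n => inner ℝ (u n) (wv (B n) (z n) k))) : inner ℝ u0 (W k) = 0 :=
  tendsto_nhds_unique (S.limw u u0 hu k) h

/-- `W_k ⟂ z_j` for `j ≠ k` -/
theorem r1 (S : Seq B a z B0 a0 z0 W C τ) (k j : Fin 6) (h : k ≠ j) :
    inner ℝ (z0 j) (W k) = 0 := by
  refine S.eq_zero_of_limw (fun n => z n j) (z0 j) (S.hz j) k ?_
  have h1 := ((S.sBz k j h).add ((S.szz k j).mul (2 * be))).sub
    ((Sm.sum Finset.univ _ fun l _ => S.szz j l).mul eta)
  refine h1.congr fun n => ?_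
  rw [inw, if_neg h, Finset.sum_sub_distrib]
  have h2 : ∑ l, (if j = l then (1 : ℝ) else c) = 1 + 5 * c := by
    have := sum_ite_off j 1 c
    simp only [eq_comm (a := j)]
    exact this
  rw [h2, real_inner_comm (B n k), real_inner_comm (z n k)]
  linear_combination eta_c

/-- `B0` in terms of `z0`. -/
theorem inB0 (S : Seq B a z B0 a0 z0 W C τ) (u : V) (k : Fin 6) :
    inner ℝ u (B0 k) = -(2 * be * inner ℝ u (z0 k)) + eta * ∑ l, inner ℝ u (z0 l) := by
  have h1 := inw B0 z0 u k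
  rw [S.hB0 k, inner_zero_right] at h1
  linarith

theorem r1' (S : Seq B a z B0 a0 z0 W C τ) (k : Fin 6) : inner ℝ (z0 k) (W k) = 0 := by
  have hs : Sm τ (fun n => inner ℝ (B n k) (wv (B n) (z n) k)
      - ta * inner ℝ (z n k) (wv (B n) (z n) k)) := by
    have h1 := ((S.sBB k).sub ((Sm.sum (Finset.univ.erase k) _ fun l hl =>
      S.sBz k l (Finset.ne_of_mem_erase hl).symm).mul eta)).add
      ((Sm.sum Finset.univ _ fun l _ => S.szz k l).mul (ta * eta))
    refine h1.congr fun n => ?_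
    rw [inw, inw, Finset.sum_sub_distrib, Finset.sum_sub_distrib]
    have h2 : ∑ l, (if k = l then (1 : ℝ) else c) = 1 + 5 * c := by
      have := sum_ite_off k 1 c
      simp only [eq_comm (a := k)]
      exact this
    have h3 : ∑ l, inner ℝ (B n k) (z n l) =
        inner ℝ (B n k) (z n k) + ∑ l ∈ Finset.univ.erase k, inner ℝ (B n k) (z n l) :=
      (Finset.add_sum_erase _ _ (Finset.mem_univ k)).symm
    rw [h2, h3, Finset.sum_const, Finset.card_erase_of_mem (Finset.mem_univ k), Finset.card_univ,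
      Fintype.card_fin, real_inner_self_eq_norm_sq, real_inner_self_eq_norm_sq, (S.adm n).h3 k,
      real_inner_comm (B n k) (z n k)]
    have h4 := id_5
    have h5 := ta_eq
    norm_num
    linear_combination (-1) * h4 + inner ℝ (B n k) (z n k) * h5
  have h2 := (S.limw (fun n => B n k) (B0 k) (S.hB k) k).sub
    ((S.limw (fun n => z n k) (z0 k) (S.hz k) k).const_mul ta)
  have h3 : inner ℝ (B0 k) (W k) - ta * inner ℝ (z0 k) (W k) = 0 := by
    refine tendsto_nhds_unique (h2.congr fun n => ?_) hs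
    ring
  have h4 : inner ℝ (B0 k) (W k) = -(2 * be * inner ℝ (z0 k) (W k)) + eta * inner ℝ (z0 k) (W k) := by
    rw [real_inner_comm, S.inB0]
    have h5 : ∑ l, inner ℝ (W k) (z0 l) = inner ℝ (W k) (z0 k) := by
      rw [Finset.sum_eq_single k]
      · intro l _ hl
        rw [real_inner_comm]
        exact S.r1 k l (Ne.symm hl)
      · simp
    rw [h5, real_inner_comm (W k)]
  have h5 := ta_eq
  have h6 := ta_pos
  have h7 : ta * inner ℝ (z0 k) (W k) = 0 := by
    rw [h4] at h3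
    rw [h5] at h3 ⊢
    linarith
  rcases mul_eq_zero.mp h7 with h8 | h8
  · linarith
  · exact h8

theorem r1a (S : Seq B a z B0 a0 z0 W C τ) (k j : Fin 6) : inner ℝ (z0 j) (W k) = 0 := by
  by_cases h : k = j
  · subst h
    exact S.r1' k
  · exact S.r1 k j h

/-- the numbers `μ_k` -/
noncomputable def mu (a0 W : Fin 6 → V) (k : Fin 6) : ℝ := inner ℝ (a0 k) (W k) / ta

theorem mu_spec (a0 W : Fin 6 → V) (k : Fin 6) : inner ℝ (a0 k) (W k) = ta * mu a0 W k := by
  unfold mu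
  have := ta_pos
  field_simp

theorem saz (S : Seq B a z B0 a0 z0 W C τ) (k : Fin 6) :
    Tendsto (fun n => (τ n)⁻¹ * inner ℝ (a n k) (z n k)) atTop (𝓝 (mu a0 W k)) := by
  have h1 := S.limw (fun n => a n k) (a0 k) (S.ha k) k
  have h2 : Sm τ (fun n => eta * ∑ l ∈ Finset.univ.erase k, inner ℝ (a n k) (z n l)) :=
    (Sm.sum (Finset.univ.erase k) _ fun l hl => S.s4' k l (Finset.ne_of_mem_erase hl).symm).mul eta
  have h3 := (h1.add h2).mul_const (ta⁻¹)
  rw [add_zero, ← div_eq_mul_inv] at h3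
  refine h3.congr fun n => ?_
  have h4 : ∑ l, inner ℝ (a n k) (z n l) =
        inner ℝ (a n k) (z n k) + ∑ l ∈ Finset.univ.erase k, inner ℝ (a n k) (z n l) :=
      (Finset.add_sum_erase _ _ (Finset.mem_univ k)).symm
  rw [inw, (S.adm n).h1 k, h4]
  have h5 := ta_eq
  have h6 := ta_pos
  have h7 : ta * ta⁻¹ = 1 := mul_inv_cancel₀ (by linarith)
  linear_combination (τ n)⁻¹ * inner ℝ (a n k) (z n k) * h7 -
    (τ n)⁻¹ * inner ℝ (a n k) (z n k) * ta⁻¹ * h5

theorem r2 (S : Seq B a z B0 a0 z0 W C τ) (j k : Fin 6) (h : j ≠ k) :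
    inner ℝ (a0 j) (W k) + sg j k * inner ℝ (a0 k) (W j) =
      -(eta * (mu a0 W j + sg j k * mu a0 W k)) := by
  have h1 := (S.limw (fun n => a n j) (a0 j) (S.ha j) k).add
    ((S.limw (fun n => a n k) (a0 k) (S.ha k) j).const_mul (sg j k))
  have h2 : ∀ k, Sm τ (fun n => ∑ l ∈ Finset.univ.erase k, inner ℝ (a n k) (z n l)) := fun k =>
    (Sm.sum (Finset.univ.erase k) _ fun l hl => S.s4' k l (Finset.ne_of_mem_erase hl).symm)
  have h3 := (((S.s2' j k h).mul 2).sub ((h2 j).mul eta)).sub ((h2 k).mul (sg j k * eta))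
  have h3' := h3.add (((S.s4' j k h).mul (2 * be)).add ((S.s4' k j h.symm).mul (sg j k * 2 * be)))
  have h4 := ((S.saz j).add ((S.saz k).const_mul (sg j k))).const_mul (-eta)
  have h5 := Tendsto.add h4 h3'
  rw [add_zero] at h5
  have h6 := tendsto_nhds_unique (h1.congr fun n => ?_) h5
  · rw [h6]
    ring
  · have h4 : ∀ k, ∑ l, inner ℝ (a n k) (z n l) =
        inner ℝ (a n k) (z n k) + ∑ l ∈ Finset.univ.erase k, inner ℝ (a n k) (z n l) := fun k =>
      (Finset.add_sum_erase _ _ (Finset.mem_univ k)).symm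
    rw [inw, inw, h4, h4]
    rw [real_inner_comm (B n j) (a n k)]
    ring

theorem r5 (S : Seq B a z B0 a0 z0 W C τ) (k j : Fin 6) :
    inner ℝ (z0 j) (C k) = ((if k = j then 1 else 0) - ig * sg k j) * mu a0 W j := by
  have h1 := S.limc (fun n => z n j) (z0 j) (S.hz j) k
  have hA : ∀ l, Tendsto (fun n => (τ n)⁻¹ * inner ℝ (z n j) (a n l)) atTop
      (𝓝 (if l = j then mu a0 W j else 0)) := by
    intro l
    by_cases hl : l = j
    · subst hl
      rw [if_pos rfl]
      refine (S.saz l).congr fun n => ?_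
      rw [real_inner_comm]
    · rw [if_neg hl]
      have := S.s4' l j hl
      refine Tendsto.congr (fun n => ?_) this
      rw [real_inner_comm]
  have h2 := (hA k).sub ((tendsto_finsetSum Finset.univ fun l _ =>
    (hA l).const_mul (sg k l)).const_mul ig)
  have h3 := tendsto_nhds_unique (h1.congr fun n => ?_) h2
  · rw [h3]
    simp only [mul_ite, mul_zero, Finset.sum_ite_eq', Finset.mem_univ, if_true]
    split_ifs <;> ring
  · rw [inc, mul_sub]
    congr 1
    rw [Finset.mul_sum, Finset.mul_sum, Finset.mul_sum]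
    refine Finset.sum_congr rfl fun l _ => ?_
    ring

/-- small deviation of `<B_k, B_l>` -/
theorem sBBo (S : Seq B a z B0 a0 z0 W C τ) (k l : Fin 6) (h : k ≠ l) :
    Sm τ (fun n => inner ℝ (B n k) (B n l) - vBB) := by
  have w1 : Sm τ (fun n => inner ℝ (B n k) (wv (B n) (z n) l)) := by
    have := S.limw (fun n => B n k) (B0 k) (S.hB k) l
    have h0 : inner ℝ (B0 k) (W l) = 0 := by
      rw [real_inner_comm, S.inB0]
      simp only [fun j => real_inner_comm (z0 j) (W l), S.r1a]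
      simp
    rw [h0] at this
    exact this
  have w2 : Sm τ (fun n => inner ℝ (z n k) (wv (B n) (z n) k)) := by
    have := S.limw (fun n => z n k) (z0 k) (S.hz k) k
    rw [S.r1a] at this
    exact this
  have sBzk : Sm τ (fun n => inner ℝ (B n k) (z n k) - (-2 * be + eta * (1 + 5 * c))) := by
    have h1 := w2.add ((Sm.sum Finset.univ _ fun l _ => S.szz k l).mul eta)
    refine h1.congr fun n => ?_
    rw [inw, Finset.sum_sub_distrib]
    have h2 : ∑ l, (if k = l then (1 : ℝ) else c) = 1 + 5 * c := by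
      have := sum_ite_off k 1 c
      simp only [eq_comm (a := k)]
      exact this
    rw [h2, real_inner_self_eq_norm_sq, (S.adm n).h3 k, real_inner_comm (B n k) (z n k)]
    ring
  have h1 := ((w1.sub ((S.sBz k l h).mul (2 * be))).add
    ((Sm.sum (Finset.univ.erase k) _ fun l hl =>
      S.sBz k l (Finset.ne_of_mem_erase hl).symm).mul eta)).add (sBzk.mul eta)
  refine h1.congr fun n => ?_
  rw [inw, Finset.sum_sub_distrib, Finset.sum_const, Finset.card_erase_of_mem (Finset.mem_univ k),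
    Finset.card_univ, Fintype.card_fin]
  have h3 : ∑ l, inner ℝ (B n k) (z n l) =
        inner ℝ (B n k) (z n k) + ∑ l ∈ Finset.univ.erase k, inner ℝ (B n k) (z n l) :=
      (Finset.add_sum_erase _ _ (Finset.mem_univ k)).symm
  rw [h3]
  unfold vBB
  norm_num
  ring

theorem saao (S : Seq B a z B0 a0 z0 W C τ) (k l : Fin 6) :
    Sm τ (fun n => inner ℝ (a n k) (a n l) -
      (if k = l then (1 - c) / 2 else sg k l * (c - vBB / 4))) := by
  by_cases h : k = l
  · subst h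
    refine (S.saa k).congr fun n => ?_
    rw [if_pos rfl, real_inner_self_eq_norm_sq]
  · have h1 := ((S.s2 k l h).mul (-sg k l)).sub ((S.sBBo k l h).mul (sg k l / 4))
    refine h1.congr fun n => ?_
    rw [if_neg h]
    have h2 := sg_sq k l h
    linear_combination (inner ℝ (a n k) (a n l)) * h2

theorem r6 (S : Seq B a z B0 a0 z0 W C τ) (k j : Fin 6) :
    inner ℝ (a0 j) (C k) = 0 := by
  have h1 := S.limc (fun n => a n j) (a0 j) (S.ha j) k
  have h2 := (S.saao j k).sub ((Sm.sum Finset.univ _ fun l _ => (S.saao j l).mul (sg k l)).mul ig)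
  refine tendsto_nhds_unique (h1.congr fun n => ?_) h2
  congr 1
  rw [inc]
  have h3 : ∑ l, sg k l * (if j = l then (1 - c) / 2 else sg j l * (c - vBB / 4)) =
      sg k j * ((1 - c) / 2) + (if k = j then 5 else 0) * (c - vBB / 4) := by
    have h4 : ∀ l, sg k l * (if j = l then (1 - c) / 2 else sg j l * (c - vBB / 4)) =
      (if j = l then sg k l * ((1 - c) / 2) else 0) + (sg l k * sg l j) * (c - vBB / 4) := by
      intro l
      by_cases hl : j = l
      · subst hl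
        simp [sg_diag]
      · rw [if_neg hl, if_neg hl, sg_symm l k, sg_symm l j]
        ring
    simp only [h4, Finset.sum_add_distrib, Finset.sum_ite_eq, Finset.mem_univ, if_true,
      ← Finset.sum_mul, sg_conf]
  have h7 : ∀ (x y : Fin 6 → ℝ), ∑ l, sg k l * (x l - y l) =
      ∑ l, sg k l * x l - ∑ l, sg k l * y l := by
    intro x y
    simp only [mul_sub, Finset.sum_sub_distrib]
  beta_reduce
  rw [h7 (fun l => inner ℝ (a n j) (a n l))
    (fun l => if j = l then (1 - c) / 2 else sg j l * (c - vBB / 4)), h3]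
  have h5 := id_6
  have h6 := ig_sq
  by_cases hkj : k = j
  · subst hkj
    rw [if_pos rfl, if_pos rfl, sg_diag]
    linear_combination (-5 * ig) * h5 + (-(1 - c) / 2) * h6
  · rw [if_neg hkj, if_neg (Ne.symm hkj), sg_symm j k]
    linear_combination (sg k j) * h5

theorem r4 (S : Seq B a z B0 a0 z0 W C τ) :
    ta * ‖∑ k, W k‖ ^ 2 ≤ 2 * g * ta * ∑ k, ‖C k‖ ^ 2 + ka * ∑ k, ‖W k‖ ^ 2 := by
  have h1 : ∀ n, ta * ‖∑ k, (τ n)⁻¹ • wv (B n) (z n) k‖ ^ 2 ≤
      2 * g * ta * ∑ k, ‖(τ n)⁻¹ • cv (a n) k‖ ^ 2 + ka * ∑ k, ‖(τ n)⁻¹ • wv (B n) (z n) k‖ ^ 2 := by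
    intro n
    have hT := tot_eq _ _ _ (S.adm n)
    have hT0 : 0 ≤ tot (B n) (a n) (z n) := tot_nonneg _ _ _ (S.adm n)
    rw [hT] at hT0
    rw [← Finset.smul_sum]
    simp only [norm_smul, mul_pow, norm_inv, Real.norm_eq_abs, inv_pow, sq_abs, ← Finset.mul_sum]
    have h2 : 0 < (τ n ^ 2)⁻¹ := by
      have := S.τpos n
      positivity
    have h3 := mul_nonneg h2.le hT0
    linarith
  refine le_of_tendsto_of_tendsto' (b := atTop) ?_ ?_ h1
  · exact ((tendsto_finsetSum Finset.univ fun k _ => S.hW k).norm.pow 2).const_mul ta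
  · exact ((tendsto_finsetSum Finset.univ fun k _ => (S.hC k).norm.pow 2).const_mul (2 * g * ta)).add
      ((tendsto_finsetSum Finset.univ fun k _ => (S.hW k).norm.pow 2).const_mul ka)

end Seq
end Pool.Agent.Helper35.Jam
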