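import Pool.Agent.Helper35.Jam.SeqZero
set_option autoImplicit false
namespace Pool.Agent.Helper35.Jam
open Finset Filter Topology

theorem cv0 (k : Fin 6) : cv a0 k = 0 := by
  apply ext_lohi
  · intro i
    unfold cv
    simp only [lo_sub, lo_smul, lo_sum, lo_a0, lo_zero]
    have h := Y_eig k i
    have h2 : ∑ l, sg k l * (rr * Yv l i) = rr * (g * Yv k i) := by
      rw [← h, Finset.mul_sum]
      exact Finset.sum_congr rfl fun l _ => by ring
    rw [h2]
    have := g_ig
    linear_combination (-rr * Yv k i) * this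
  · intro j
    unfold cv a0
    simp [hi_sum]

theorem local_rigid : ∃ ε : ℝ, 0 < ε ∧ ∀ B a z : Fin 6 → E9, Adm B a z →
    (∀ k, dist (B k) (B0 k) < ε) → (∀ k, dist (a k) (a0 k) < ε) → (∀ k, dist (z k) (z0 k) < ε) →
    StdGram B a z := by
  by_contra hcon
  push Not at hcon
  have hpos : ∀ n : ℕ, (0 : ℝ) < 1 / (n + 1) := fun n => by positivity
  choose B a z hadm hB ha hz hbad using fun n : ℕ => hcon (1 / ((n : ℝ) + 1)) (hpos n)
  have lim : ∀ (f : ℕ → E9) (f0 : E9), (∀ n : ℕ, dist (f n) f0 < 1 / ((n : ℝ) + 1)) →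
      Tendsto f atTop (𝓝 f0) := by
    intro f f0 hf
    rw [tendsto_iff_dist_tendsto_zero]
    exact squeeze_zero (fun n => dist_nonneg) (fun n => (hf n).le)
      tendsto_one_div_add_atTop_nhds_zero_nat
  have lB : ∀ k, Tendsto (fun n => B n k) atTop (𝓝 (B0 k)) := fun k => lim _ _ fun n => hB n k
  have la : ∀ k, Tendsto (fun n => a n k) atTop (𝓝 (a0 k)) := fun k => lim _ _ fun n => ha n k
  have lz : ∀ k, Tendsto (fun n => z n k) atTop (𝓝 (z0 k)) := fun k => lim _ _ fun n => hz n k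
  set D : ℕ → (Fin 6 → E9) × (Fin 6 → E9) :=
    fun n => (fun k => wv (B n) (z n) k, fun k => cv (a n) k) with hD
  have hD0 : ∀ n, D n ≠ 0 := by
    intro n h0
    apply hbad n
    refine stdGram_of_zero _ _ _ (hadm n) (fun k => ?_) (fun k => ?_)
    · have := congrFun (congrArg Prod.fst h0) k
      exact this
    · have := congrFun (congrArg Prod.snd h0) k
      exact this
  set τ : ℕ → ℝ := fun n => ‖D n‖ with hτ
  have τpos : ∀ n, 0 < τ n := fun n => norm_pos_iff.mpr (hD0 n)
  have lD : Tendsto D atTop (𝓝 0) := by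
    have h1 : Tendsto (fun n => (fun k => wv (B n) (z n) k : Fin 6 → E9)) atTop (𝓝 0) := by
      rw [tendsto_pi_nhds]
      intro k
      have h2 : Tendsto (fun n => wv (B n) (z n) k) atTop (𝓝 (wv B0 z0 k)) := by
        unfold wv
        exact ((lB k).add ((lz k).const_smul (2 * be))).sub
          ((tendsto_finsetSum Finset.univ fun l _ => lz l).const_smul eta)
      rw [wv0] at h2
      exact h2
    have h3 : Tendsto (fun n => (fun k => cv (a n) k : Fin 6 → E9)) atTop (𝓝 0) := by
      rw [tendsto_pi_nhds]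
      intro k
      have h2 : Tendsto (fun n => cv (a n) k) atTop (𝓝 (cv a0 k)) := by
        unfold cv
        exact (la k).sub
          ((tendsto_finsetSum Finset.univ fun l _ => (la l).const_smul (sg k l)).const_smul ig)
      rw [cv0] at h2
      exact h2
    exact h1.prodMk_nhds h3
  have lτ : Tendsto τ atTop (𝓝 0) := by
    have := lD.norm
    rwa [norm_zero] at this
  have hsph : ∀ n, (τ n)⁻¹ • D n ∈ Metric.sphere (0 : (Fin 6 → E9) × (Fin 6 → E9)) 1 := by
    intro n
    rw [mem_sphere_zero_iff_norm, norm_smul, norm_inv, Real.norm_eq_abs, abs_of_pos (τpos n)]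
    exact inv_mul_cancel₀ (τpos n).ne'
  obtain ⟨v, hv, φ, hφ, hlim⟩ := (isCompact_sphere (0 : (Fin 6 → E9) × (Fin 6 → E9)) 1).tendsto_subseq hsph
  have hφt := hφ.tendsto_atTop
  have l1 : ∀ k, Tendsto (fun n => (τ (φ n))⁻¹ • wv (B (φ n)) (z (φ n)) k) atTop (𝓝 (v.1 k)) := by
    intro k
    have h1 := (continuous_fst.tendsto v).comp hlim
    exact (tendsto_pi_nhds.mp h1) k
  have l2 : ∀ k, Tendsto (fun n => (τ (φ n))⁻¹ • cv (a (φ n)) k) atTop (𝓝 (v.2 k)) := by
    intro k
    have h1 := (continuous_snd.tendsto v).comp hlim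
    exact (tendsto_pi_nhds.mp h1) k
  have S : Seq (fun n => B (φ n)) (fun n => a (φ n)) (fun n => z (φ n)) B0 a0 z0 v.1 v.2
      (fun n => τ (φ n)) := {
    adm := fun n => hadm (φ n)
    hB := fun k => (lB k).comp hφt
    ha := fun k => (la k).comp hφt
    hz := fun k => (lz k).comp hφt
    hB0 := wv0
    ha0 := std0
    τpos := fun n => τpos (φ n)
    τ0 := lτ.comp hφt
    wle := fun n k => by
      have h1 : ‖(D (φ n)).1‖ ≤ ‖D (φ n)‖ := norm_fst_le _
      exact le_trans (norm_le_pi_norm (D (φ n)).1 k) h1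
    cle := fun n k => by
      have h1 : ‖(D (φ n)).2‖ ≤ ‖D (φ n)‖ := norm_snd_le _
      exact le_trans (norm_le_pi_norm (D (φ n)).2 k) h1
    hW := l1
    hC := l2 }
  obtain ⟨hW, hC⟩ := seq_zero S
  have hv0 : v = 0 := Prod.ext (funext hW) (funext hC)
  rw [hv0] at hv
  simp at hv

end Pool.Agent.Helper35.Jam
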