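import Pool.Agent.Helper35.Jam.Conf
set_option autoImplicit false
namespace Pool.Agent.Helper35.Jam
open Finset Filter Topology

theorem sum_dt_sq (u : Fin 3 → ℝ) : ∑ k, dt (Yv k) u ^ 2 = 10 * be ^ 2 * ∑ i, u i ^ 2 := by
  have h1 : ∀ k, dt (Yv k) u ^ 2 = ∑ i, (dt (Yv k) u * Yv k i) * u i := by
    intro k
    have : ∑ i, (dt (Yv k) u * Yv k i) * u i = dt (Yv k) u * ∑ i, Yv k i * u i := by
      rw [Finset.mul_sum]
      exact Finset.sum_congr rfl fun i _ => by ring
    rw [this]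
    unfold dt
    ring
  simp only [h1]
  rw [Finset.sum_comm]
  simp only [← Finset.sum_mul, Y_frame]
  rw [Finset.mul_sum]
  exact Finset.sum_congr rfl fun i _ => by ring

theorem seq_zero {B a z : ℕ → Fin 6 → E9} {W C : Fin 6 → E9} {τ : ℕ → ℝ}
    (S : Seq B a z B0 a0 z0 W C τ) : (∀ k, W k = 0) ∧ (∀ k, C k = 0) := by
  have hW : ∀ k j, hi (W k) j = 0 := fun k j => hi_zero_of (W k) (fun j => S.r1a k j) j
  have hrr := rr_pos
  set m : Fin 6 → ℝ := fun k => Seq.mu a0 W k / rr with hm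
  have hmu : ∀ k, Seq.mu a0 W k = rr * m k := by
    intro k
    rw [hm]
    field_simp
  have h1 : ∀ k, dt (Yv k) (lo (W k)) = ta * m k := by
    intro k
    have h := Seq.mu_spec a0 W k
    rw [inner_a0, hmu] at h
    have : rr * dt (Yv k) (lo (W k)) = rr * (ta * m k) := by linarith
    exact mul_left_cancel₀ hrr.ne' this
  have h2 : ∀ j k, j ≠ k → dt (Yv j) (lo (W k)) + sg j k * dt (Yv k) (lo (W j)) =
      -(eta * (m j + sg j k * m k)) := by
    intro j k hjk
    have h := S.r2 j k hjk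
    rw [inner_a0, inner_a0, hmu, hmu] at h
    apply mul_left_cancel₀ hrr.ne'
    linarith
  obtain ⟨s1, u, hu1, hu2, hu3⟩ := classify (fun k => lo (W k)) m h1 h2
  have hC1 : ∀ k i, lo (C k) i = 0 := fun k i => lo_zero_of (C k) (fun j => S.r6 k j) i
  have hC2 : ∀ k j, ss * hi (C k) j = ((if k = j then 1 else 0) - ig * sg k j) * (rr * m j) := by
    intro k j
    have h5 : ∀ j, bb * ∑ i, hi (C k) i + ss * hi (C k) j =
        ((if k = j then 1 else 0) - ig * sg k j) * (rr * m j) := by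
      intro j
      rw [← inner_z0, S.r5, hmu]
    have h6 : ∑ j, (bb * ∑ i, hi (C k) i + ss * hi (C k) j) = 0 := by
      simp only [h5]
      have h7 : ∑ j, ((if k = j then 1 else 0) - ig * sg k j) * (rr * m j) =
          rr * m k - ig * rr * ∑ j, sg k j * m j := by
        have : ∀ j, ((if k = j then 1 else 0) - ig * sg k j) * (rr * m j) =
            (if k = j then rr * m j else 0) - ig * rr * (sg k j * m j) := by
          intro j
          split_ifs <;> ring
        simp only [this, Finset.sum_sub_distrib, Finset.sum_ite_eq, Finset.mem_univ, if_true,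
          ← Finset.mul_sum]
      rw [h7, s1 k]
      have := g_ig
      linear_combination (-rr * m k) * this
    rw [Finset.sum_add_distrib, ← Finset.mul_sum, ← Finset.mul_sum] at h6
    simp only [Finset.sum_const, Finset.card_univ, Fintype.card_fin] at h6
    rw [nsmul_eq_mul] at h6
    push_cast at h6
    have h3 : hh * ∑ i, hi (C k) i = 0 := by
      have : hh = 6 * bb + ss := by unfold bb; ring
      rw [this]
      linarith
    have h4 : ∑ i, hi (C k) i = 0 := (mul_eq_zero.mp h3).resolve_left hh_pos.ne'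
    have h8 := h5 j
    rw [h4, mul_zero, zero_add] at h8
    exact h8
  -- squared norms
  have nC : ∀ k, ss ^ 2 * ‖C k‖ ^ 2 = rr ^ 2 * ((1 - ig ^ 2) * m k ^ 2 + ig ^ 2 * ∑ j, m j ^ 2) := by
    intro k
    rw [normsq_lohi]
    simp only [hC1]
    have h9 : ss ^ 2 * (∑ i : Fin 3, (0 : ℝ) ^ 2 + ∑ j, hi (C k) j ^ 2) =
        ∑ j, (ss * hi (C k) j) ^ 2 := by
      rw [Finset.sum_eq_zero (fun i _ => by norm_num), zero_add, Finset.mul_sum]
      exact Finset.sum_congr rfl fun j _ => by ring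
    rw [h9]
    simp only [hC2]
    have h10 : ∀ j, (((if k = j then 1 else 0) - ig * sg k j) * (rr * m j)) ^ 2 =
        (if k = j then rr ^ 2 * (1 - ig ^ 2) * m j ^ 2 else 0) + rr ^ 2 * ig ^ 2 * m j ^ 2 := by
      intro j
      by_cases hkj : k = j
      · subst hkj
        rw [if_pos rfl, if_pos rfl, sg_diag]
        ring
      · rw [if_neg hkj, if_neg hkj]
        have := sg_sq k j hkj
        linear_combination (ig ^ 2 * rr ^ 2 * m j ^ 2) * this
    simp only [h10, Finset.sum_add_distrib, Finset.sum_ite_eq, Finset.mem_univ, if_true,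
      ← Finset.mul_sum]
    ring
  have hm2 : ∑ k, m k ^ 2 = cm ^ 2 * (10 * be ^ 2 * ∑ i, u i ^ 2) := by
    rw [← sum_dt_sq, Finset.mul_sum]
    refine Finset.sum_congr rfl fun k _ => ?_
    rw [hu1 k]
    ring
  have sC : ∑ k, ‖C k‖ ^ 2 = 2 * cm ^ 2 * ∑ i, u i ^ 2 := by
    have h11 : ss ^ 2 * ∑ k, ‖C k‖ ^ 2 = 2 * rr ^ 2 * ∑ k, m k ^ 2 := by
      rw [Finset.mul_sum]
      simp only [nC]
      rw [← Finset.mul_sum, Finset.sum_add_distrib, ← Finset.mul_sum]
      simp only [Finset.sum_const, Finset.card_univ, Fintype.card_fin, nsmul_eq_mul]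
      have := ig_sq
      push_cast
      linear_combination (rr ^ 2 * ∑ k, m k ^ 2) * this
    rw [hm2] at h11
    have h12 := rr_sq
    have h13 := ss_sq
    have h14 : ss ^ 2 * ∑ k, ‖C k‖ ^ 2 = ss ^ 2 * (2 * cm ^ 2 * ∑ i, u i ^ 2) := by
      rw [h11, h13]
      linear_combination (2 * cm ^ 2 * ∑ i, u i ^ 2) * h12
    exact mul_left_cancel₀ (pow_ne_zero 2 ss_pos.ne') h14
  have sWs : ‖∑ k, W k‖ ^ 2 = cD ^ 2 * ∑ i, u i ^ 2 := by
    rw [normsq_lohi]
    simp only [lo_sum, hi_sum, hW, hu3]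
    simp only [Finset.sum_const_zero]
    rw [Finset.mul_sum, Finset.sum_eq_zero (s := (Finset.univ : Finset (Fin 6)))
      (fun i _ => by norm_num), add_zero]
    exact Finset.sum_congr rfl fun i _ => by ring
  have sW : ∑ k, ‖W k‖ ^ 2 =
      (6 * cal ^ 2 + 20 * cal * cb * be ^ 2 + 50 * cb ^ 2 * be ^ 4) * ∑ i, u i ^ 2 := by
    have h15 : ∀ k, ‖W k‖ ^ 2 = cal ^ 2 * ∑ i, u i ^ 2 +
        (2 * cal * cb + cb ^ 2 * (5 * be ^ 2)) * dt (Yv k) u ^ 2 := by
      intro k
      rw [normsq_lohi]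
      simp only [hW, hu2]
      rw [Finset.sum_eq_zero (s := (Finset.univ : Finset (Fin 6))) (fun i _ => by norm_num),
        add_zero]
      have e1 : ∀ i, (cal * u i + cb * dt (Yv k) u * Yv k i) ^ 2 =
          cal ^ 2 * u i ^ 2 + 2 * cal * cb * dt (Yv k) u * (Yv k i * u i) +
            cb ^ 2 * dt (Yv k) u ^ 2 * (Yv k i * Yv k i) := by
        intro i
        ring
      simp only [e1, Finset.sum_add_distrib, ← Finset.mul_sum]
      have e2 : ∑ i, Yv k i * u i = dt (Yv k) u := rfl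
      have e3 : ∑ i, Yv k i * Yv k i = 5 * be ^ 2 := Y_self k
      rw [e2, e3]
      ring
    simp only [h15, Finset.sum_add_distrib, ← Finset.mul_sum, sum_dt_sq, Finset.sum_const,
      Finset.card_univ, Fintype.card_fin, nsmul_eq_mul]
    push_cast
    ring
  have h4 := S.r4
  rw [sC, sWs, sW] at h4
  have hF := iF
  have hFp := F_pos
  have hun : 0 ≤ ∑ i, u i ^ 2 := Finset.sum_nonneg fun i _ => sq_nonneg _
  have hu0 : ∑ i, u i ^ 2 = 0 := by
    have : (640 + 1280 * be - 880 * be ^ 2 - 1760 * be ^ 3) * ∑ i, u i ^ 2 ≤ 0 := by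
      rw [← hF]
      linarith
    nlinarith
  have hui : ∀ i, u i = 0 := by
    intro i
    have := (Finset.sum_eq_zero_iff_of_nonneg (fun i _ => sq_nonneg (u i))).mp hu0 i
      (Finset.mem_univ i)
    exact pow_eq_zero_iff (two_ne_zero) |>.mp this
  constructor
  · intro k
    have h16 : ∑ k, ‖W k‖ ^ 2 = 0 := by rw [sW, hu0, mul_zero]
    have := (Finset.sum_eq_zero_iff_of_nonneg (fun i _ => sq_nonneg (‖W i‖))).mp h16 k
      (Finset.mem_univ k)
    exact norm_eq_zero.mp (pow_eq_zero_iff (two_ne_zero) |>.mp this)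
  · intro k
    have h16 : ∑ k, ‖C k‖ ^ 2 = 0 := by rw [sC, hu0, mul_zero]
    have := (Finset.sum_eq_zero_iff_of_nonneg (fun i _ => sq_nonneg (‖C i‖))).mp h16 k
      (Finset.mem_univ k)
    exact norm_eq_zero.mp (pow_eq_zero_iff (two_ne_zero) |>.mp this)

end Pool.Agent.Helper35.Jam
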