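import Pool.Agent.Helper35.Jam.Const

set_option autoImplicit false

namespace Pool.Agent.Helper35.Jam

open Finset

/-- The symmetric conference matrix of order 6. -/
def sg : Fin 6 → Fin 6 → ℝ :=
  ![![0, 1, 1, -1, 1, 1], ![1, 0, 1, -1, -1, -1], ![1, 1, 0, 1, 1, -1],
    ![-1, -1, 1, 0, 1, -1], ![1, -1, 1, 1, 0, 1], ![1, -1, -1, -1, 1, 0]]

theorem sg_symm (k l : Fin 6) : sg k l = sg l k := by
  fin_cases k <;> fin_cases l <;> simp [sg]

theorem sg_diag (k : Fin 6) : sg k k = 0 := by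
  fin_cases k <;> simp [sg]

theorem sg_sq (k l : Fin 6) (h : k ≠ l) : sg k l * sg k l = 1 := by
  fin_cases k <;> fin_cases l <;> simp [sg] at h ⊢

theorem sg_conf (l m : Fin 6) : ∑ k, sg k l * sg k m = if l = m then 5 else 0 := by
  fin_cases l <;> fin_cases m <;> simp [sg, Fin.sum_univ_succ] <;> norm_num

variable {V : Type*} [NormedAddCommGroup V] [InnerProductSpace ℝ V]


end Pool.Agent.Helper35.Jam
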