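import Pool.Agent.Helper35.Jam.Stress
set_option autoImplicit false
namespace Pool.Agent.Helper35.Jam
open Finset Filter Topology
variable {V : Type*} [NormedAddCommGroup V] [InnerProductSpace ℝ V]

/-- Admissible triples (in terms of half sums, half differences). -/
structure Adm (B a z : Fin 6 → V) : Prop where
  h1 : ∀ k, inner ℝ (a k) (B k) = 0
  h2 : ∀ k, ‖B k‖ ^ 2 / 4 + ‖a k‖ ^ 2 = 1
  h3 : ∀ k, ‖z k‖ ^ 2 = 1
  h4 : ∀ k, ‖B k‖ ^ 2 / 4 - ‖a k‖ ^ 2 ≤ c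
  h5 : ∀ k l, k ≠ l → |(sg k l * inner ℝ (B k) (a l) + inner ℝ (a k) (B l)) / 2| ≤
    c - (inner ℝ (B k) (B l) / 4 + sg k l * inner ℝ (a k) (a l))
  h6 : ∀ k l, k ≠ l → inner ℝ (z k) (z l) ≤ c
  h7 : ∀ k l, k ≠ l → |inner ℝ (a k) (z l)| ≤ c - inner ℝ (B k) (z l) / 2

/-- `w_k`. -/
noncomputable def wv (B z : Fin 6 → V) (k : Fin 6) : V := B k + (2 * be) • z k - eta • ∑ l, z l
/-- `c_k`. -/
noncomputable def cv (a : Fin 6 → V) (k : Fin 6) : V := a k - ig • ∑ l, sg k l • a l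

/-- The total slack. -/
noncomputable def tot (B a z : Fin 6 → V) : ℝ :=
  2 * wq * ∑ k, (c - (‖B k‖ ^ 2 / 4 - ‖a k‖ ^ 2))
      + 2 * wp * ∑ k, ∑ l, off k l * (c - (inner ℝ (B k) (B l) / 4 + sg k l * inner ℝ (a k) (a l)))
      + we * ∑ k, ∑ l, off k l * (c - inner ℝ (z k) (z l))
      + 4 * wd * ∑ k, ∑ l, off k l * (c - inner ℝ (B k) (z l) / 2)

theorem sum_off : ∑ k : Fin 6, ∑ l : Fin 6, off k l = 30 := by
  have h : ∀ k : Fin 6, ∑ l : Fin 6, off k l = 5 := by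
    intro k
    have h1 : ∀ l : Fin 6, off k l = 1 - (if k = l then 1 else 0) := by
      intro l
      unfold off
      split_ifs <;> norm_num
    simp only [h1, Finset.sum_sub_distrib, Finset.sum_ite_eq, Finset.mem_univ, if_true]
    norm_num
  simp only [h]
  norm_num

theorem sum_off_sub (F : Fin 6 → Fin 6 → ℝ) (r : ℝ) :
    ∑ k, ∑ l, off k l * (r - F k l) = 30 * r - ∑ k, ∑ l, off k l * F k l := by
  simp only [mul_sub, Finset.sum_sub_distrib, ← Finset.sum_mul, sum_off]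

theorem tot_eq (B a z : Fin 6 → V) (h : Adm B a z) :
    tot B a z = 2 * g * ta * ∑ k, ‖cv a k‖ ^ 2 + ka * ∑ k, ‖wv B z k‖ ^ 2
      - ta * ‖∑ k, wv B z k‖ ^ 2 := by
  have hs := stress B a z
  have e1 : ∑ k, (‖B k‖ ^ 2 / 2 + 2 * ‖a k‖ ^ 2) = 12 := by
    have : ∀ k, ‖B k‖ ^ 2 / 2 + 2 * ‖a k‖ ^ 2 = 2 := fun k => by linarith [h.h2 k]
    simp only [this]
    norm_num
  have e2 : ∑ k, ‖z k‖ ^ 2 = 6 := by
    simp only [h.h3]
    norm_num
  have e3 : ∑ k, (c - (‖B k‖ ^ 2 / 4 - ‖a k‖ ^ 2)) = 6 * c - ∑ k, (‖B k‖ ^ 2 / 4 - ‖a k‖ ^ 2) := by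
    rw [Finset.sum_sub_distrib]
    simp
  have e4 : ∑ k, ∑ l, off k l * (c - inner ℝ (B k) (z l) / 2) =
      30 * c - (1 / 2) * ∑ k, ∑ l, off k l * inner ℝ (B k) (z l) := by
    rw [sum_off_sub, Finset.mul_sum]
    congr 1
    refine Finset.sum_congr rfl fun k _ => ?_
    rw [Finset.mul_sum]
    exact Finset.sum_congr rfl fun l _ => by ring
  rw [e1, e2] at hs
  unfold tot
  rw [e3, sum_off_sub, sum_off_sub, e4]
  unfold wv cv
  linear_combination hs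

/-- A constant. -/
noncomputable def MM : ℝ := 12 * g * ta + 6 * ka

theorem slack_bounds (B a z : Fin 6 → V) (h : Adm B a z) (τ : ℝ) (hτ : 0 ≤ τ)
    (hw : ∀ k, ‖wv B z k‖ ≤ τ) (hc : ∀ k, ‖cv a k‖ ≤ τ) :
    (∀ k, 2 * wq * (c - (‖B k‖ ^ 2 / 4 - ‖a k‖ ^ 2)) ≤ MM * τ ^ 2) ∧
    (∀ k l, k ≠ l → 2 * wp * (c - (inner ℝ (B k) (B l) / 4 + sg k l * inner ℝ (a k) (a l))) ≤
      MM * τ ^ 2) ∧
    (∀ k l, k ≠ l → we * (c - inner ℝ (z k) (z l)) ≤ MM * τ ^ 2) ∧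
    (∀ k l, k ≠ l → 4 * wd * (c - inner ℝ (B k) (z l) / 2) ≤ MM * τ ^ 2) := by
  have hT := tot_eq B a z h
  have hTle : tot B a z ≤ MM * τ ^ 2 := by
    rw [hT]
    have h1 : ∑ k, ‖cv a k‖ ^ 2 ≤ 6 * τ ^ 2 := by
      calc ∑ k, ‖cv a k‖ ^ 2 ≤ ∑ _k : Fin 6, τ ^ 2 :=
            Finset.sum_le_sum fun k _ => pow_le_pow_left₀ (norm_nonneg _) (hc k) 2
        _ = 6 * τ ^ 2 := by simp
    have h2 : ∑ k, ‖wv B z k‖ ^ 2 ≤ 6 * τ ^ 2 := by
      calc ∑ k, ‖wv B z k‖ ^ 2 ≤ ∑ _k : Fin 6, τ ^ 2 :=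
            Finset.sum_le_sum fun k _ => pow_le_pow_left₀ (norm_nonneg _) (hw k) 2
        _ = 6 * τ ^ 2 := by simp
    have h3 : 0 ≤ ta * ‖∑ k, wv B z k‖ ^ 2 := by
      have := ta_pos
      positivity
    have h4 : 2 * g * ta * ∑ k, ‖cv a k‖ ^ 2 ≤ 2 * g * ta * (6 * τ ^ 2) := by
      apply mul_le_mul_of_nonneg_left h1
      have := ta_pos
      have := g_gt
      positivity
    have h5 : ka * ∑ k, ‖wv B z k‖ ^ 2 ≤ ka * (6 * τ ^ 2) :=
      mul_le_mul_of_nonneg_left h2 ka_pos.le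
    unfold MM
    nlinarith
  have n1 : ∀ k, 0 ≤ c - (‖B k‖ ^ 2 / 4 - ‖a k‖ ^ 2) := fun k => by linarith [h.h4 k]
  have n2 : ∀ k l, 0 ≤ off k l *
      (c - (inner ℝ (B k) (B l) / 4 + sg k l * inner ℝ (a k) (a l))) := by
    intro k l
    by_cases hkl : k = l
    · simp [off, hkl]
    · simp only [off, if_neg hkl, one_mul]
      exact le_trans (abs_nonneg _) (h.h5 k l hkl)
  have n3 : ∀ k l, 0 ≤ off k l * (c - inner ℝ (z k) (z l)) := by
    intro k l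
    by_cases hkl : k = l
    · simp [off, hkl]
    · simp only [off, if_neg hkl, one_mul]
      linarith [h.h6 k l hkl]
  have n4 : ∀ k l, 0 ≤ off k l * (c - inner ℝ (B k) (z l) / 2) := by
    intro k l
    by_cases hkl : k = l
    · simp [off, hkl]
    · simp only [off, if_neg hkl, one_mul]
      exact le_trans (abs_nonneg _) (h.h7 k l hkl)
  have s1 : 0 ≤ ∑ k, (c - (‖B k‖ ^ 2 / 4 - ‖a k‖ ^ 2)) := Finset.sum_nonneg fun k _ => n1 k
  have s2 : 0 ≤ ∑ k, ∑ l, off k l *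
      (c - (inner ℝ (B k) (B l) / 4 + sg k l * inner ℝ (a k) (a l))) :=
    Finset.sum_nonneg fun k _ => Finset.sum_nonneg fun l _ => n2 k l
  have s3 : 0 ≤ ∑ k, ∑ l, off k l * (c - inner ℝ (z k) (z l)) :=
    Finset.sum_nonneg fun k _ => Finset.sum_nonneg fun l _ => n3 k l
  have s4 : 0 ≤ ∑ k, ∑ l, off k l * (c - inner ℝ (B k) (z l) / 2) :=
    Finset.sum_nonneg fun k _ => Finset.sum_nonneg fun l _ => n4 k l
  have hwq := wq_pos
  have hwp := wp_pos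
  have hwe := we_pos
  have hwd := wd_pos
  have dle : ∀ (F : Fin 6 → Fin 6 → ℝ), (∀ k l, 0 ≤ F k l) → ∀ k l, F k l ≤ ∑ k, ∑ l, F k l := by
    intro F hF k l
    calc F k l ≤ ∑ l, F k l :=
          Finset.single_le_sum (f := fun l => F k l) (fun l _ => hF k l) (Finset.mem_univ l)
      _ ≤ ∑ k, ∑ l, F k l :=
          Finset.single_le_sum (f := fun k => ∑ l, F k l)
            (fun k _ => Finset.sum_nonneg fun l _ => hF k l) (Finset.mem_univ k)
  unfold tot at hTle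
  refine ⟨fun k => ?_, fun k l hkl => ?_, fun k l hkl => ?_, fun k l hkl => ?_⟩
  · have := Finset.single_le_sum (f := fun k => (c - (‖B k‖ ^ 2 / 4 - ‖a k‖ ^ 2)))
      (fun k _ => n1 k) (Finset.mem_univ k)
    have t1 := mul_le_mul_of_nonneg_left this (by positivity : 0 ≤ 2 * wq)
    have t2 := mul_nonneg (by positivity : 0 ≤ 2 * wp) s2
    have t3 := mul_nonneg hwe.le s3
    have t4 := mul_nonneg (by positivity : 0 ≤ 4 * wd) s4
    linarith
  · have := dle _ n2 k l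
    simp only [off, if_neg hkl, one_mul] at this
    have t1 := mul_le_mul_of_nonneg_left this (by positivity : 0 ≤ 2 * wp)
    have t2 := mul_nonneg (by positivity : 0 ≤ 2 * wq) s1
    have t3 := mul_nonneg hwe.le s3
    have t4 := mul_nonneg (by positivity : 0 ≤ 4 * wd) s4
    simp only [off] at hTle t1 t2 t3 t4
    linarith
  · have := dle _ n3 k l
    simp only [off, if_neg hkl, one_mul] at this
    have t1 := mul_le_mul_of_nonneg_left this hwe.le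
    have t2 := mul_nonneg (by positivity : 0 ≤ 2 * wq) s1
    have t3 := mul_nonneg (by positivity : 0 ≤ 2 * wp) s2
    have t4 := mul_nonneg (by positivity : 0 ≤ 4 * wd) s4
    simp only [off] at hTle t1 t2 t3 t4
    linarith
  · have := dle _ n4 k l
    simp only [off, if_neg hkl, one_mul] at this
    have t1 := mul_le_mul_of_nonneg_left this (by positivity : 0 ≤ 4 * wd)
    have t2 := mul_nonneg (by positivity : 0 ≤ 2 * wq) s1
    have t3 := mul_nonneg (by positivity : 0 ≤ 2 * wp) s2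
    have t4 := mul_nonneg hwe.le s3
    simp only [off] at hTle t1 t2 t3 t4
    linarith

end Pool.Agent.Helper35.Jam
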