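import Pool.Agent.Helper35.Jam.Sig
set_option autoImplicit false
namespace Pool.Agent.Helper35.Jam
open Finset
variable {V : Type*} [NormedAddCommGroup V] [InnerProductSpace ℝ V]

/-- sum over off-diagonal pairs -/
def off (k l : Fin 6) : ℝ := if k = l then 0 else 1

theorem inner_sum_sum (f h : Fin 6 → V) :
    inner ℝ (∑ k, f k) (∑ k, h k) = ∑ k, ∑ l, inner ℝ (f k) (h l) := by
  rw [sum_inner]
  refine Finset.sum_congr rfl fun k _ => ?_
  rw [inner_sum]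

theorem dsum_split (F : Fin 6 → Fin 6 → ℝ) :
    ∑ k, ∑ l, F k l = ∑ k, F k k + ∑ k, ∑ l, off k l * F k l := by
  rw [← Finset.sum_add_distrib]
  refine Finset.sum_congr rfl fun k _ => ?_
  have h1 : F k k = ∑ l, (if k = l then F k l else 0) := by simp
  rw [h1, ← Finset.sum_add_distrib]
  refine Finset.sum_congr rfl fun l _ => ?_
  unfold off
  split_ifs <;> simp

theorem idA (a : Fin 6 → V) :
    ∑ k, ‖a k - ig • ∑ l, sg k l • a l‖ ^ 2 =
      2 * ∑ k, ‖a k‖ ^ 2 - 2 * ig * ∑ k, ∑ l, sg k l * inner ℝ (a k) (a l) := by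
  have h1 : ∀ k, ‖a k - ig • ∑ l, sg k l • a l‖ ^ 2 =
      ‖a k‖ ^ 2 - 2 * ig * ∑ l, sg k l * inner ℝ (a k) (a l)
        + ig ^ 2 * ∑ l, ∑ m, (sg k l * sg k m) * inner ℝ (a l) (a m) := by
    intro k
    rw [norm_sub_sq_real, norm_smul, mul_pow, inner_smul_right, inner_sum,
      ← real_inner_self_eq_norm_sq (∑ l, sg k l • a l), inner_sum_sum]
    simp only [inner_smul_left, inner_smul_right, Real.norm_eq_abs, sq_abs, RCLike.conj_to_real]
    congr 1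
    · ring
    · congr 1
      refine Finset.sum_congr rfl fun l _ => Finset.sum_congr rfl fun m _ => ?_
      ring
  simp only [h1, Finset.sum_add_distrib, Finset.sum_sub_distrib, ← Finset.mul_sum]
  have h2 : ∑ k, ∑ l, ∑ m, (sg k l * sg k m) * inner ℝ (a l) (a m) = 5 * ∑ k, ‖a k‖ ^ 2 := by
    rw [Finset.sum_comm, Finset.mul_sum]
    refine Finset.sum_congr rfl fun l _ => ?_
    rw [Finset.sum_comm]
    simp only [← Finset.sum_mul, sg_conf]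
    simp
  rw [h2]
  linear_combination (∑ k, ‖a k‖ ^ 2) * ig_sq

theorem idB (B z : Fin 6 → V) :
    ∑ k, ‖B k + (2 * be) • z k - eta • ∑ l, z l‖ ^ 2 =
      ∑ k, ‖B k‖ ^ 2 + 4 * be ^ 2 * ∑ k, ‖z k‖ ^ 2 + (6 * eta ^ 2 - 4 * be * eta) * ‖∑ l, z l‖ ^ 2
      + 4 * be * ∑ k, inner ℝ (B k) (z k) - 2 * eta * inner ℝ (∑ k, B k) (∑ k, z k) := by
  have h1 : ∀ k, ‖B k + (2 * be) • z k - eta • ∑ l, z l‖ ^ 2 =
      ‖B k‖ ^ 2 + 4 * be ^ 2 * ‖z k‖ ^ 2 + eta ^ 2 * ‖∑ l, z l‖ ^ 2 + 4 * be * inner ℝ (B k) (z k)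
      - 2 * eta * inner ℝ (B k) (∑ l, z l) - 4 * be * eta * inner ℝ (z k) (∑ l, z l) := by
    intro k
    rw [norm_sub_sq_real, norm_add_sq_real]
    simp only [norm_smul, mul_pow, inner_smul_left, inner_smul_right, inner_add_left,
      Real.norm_eq_abs, sq_abs, RCLike.conj_to_real, abs_mul]
    norm_num
    ring
  simp only [h1, Finset.sum_add_distrib, Finset.sum_sub_distrib, ← Finset.mul_sum, ← sum_inner,
    Finset.sum_const, Finset.card_univ, Fintype.card_fin, real_inner_self_eq_norm_sq]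
  norm_num
  ring

theorem idC (B z : Fin 6 → V) :
    ‖∑ k, (B k + (2 * be) • z k - eta • ∑ l, z l)‖ ^ 2 =
      ‖∑ k, B k‖ ^ 2 + 2 * ka * inner ℝ (∑ k, B k) (∑ k, z k) + ka ^ 2 * ‖∑ l, z l‖ ^ 2 := by
  have h1 : ∑ k, (B k + (2 * be) • z k - eta • ∑ l, z l) = ∑ k, B k + ka • ∑ l, z l := by
    rw [Finset.sum_sub_distrib, Finset.sum_add_distrib, ← Finset.smul_sum, Finset.sum_const,
      Finset.card_univ, Fintype.card_fin, ka_eq, sub_smul, ← Nat.cast_smul_eq_nsmul ℝ, smul_smul]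
    push_cast
    module
  rw [h1, norm_add_sq_real, norm_smul, mul_pow, inner_smul_right, Real.norm_eq_abs, sq_abs]
  ring

/-- The stress identity. -/
theorem stress (B a z : Fin 6 → V) :
    -(2 * g * ta) * ∑ k, ‖a k - ig • ∑ l, sg k l • a l‖ ^ 2
      - ka * ∑ k, ‖B k + (2 * be) • z k - eta • ∑ l, z l‖ ^ 2
      + ta * ‖∑ k, (B k + (2 * be) • z k - eta • ∑ l, z l)‖ ^ 2 =
    2 * wq * ∑ k, (‖B k‖ ^ 2 / 4 - ‖a k‖ ^ 2)
      + 2 * wp * ∑ k, ∑ l, off k l * (inner ℝ (B k) (B l) / 4 + sg k l * inner ℝ (a k) (a l))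
      + we * ∑ k, ∑ l, off k l * inner ℝ (z k) (z l)
      + 2 * wd * ∑ k, ∑ l, off k l * inner ℝ (B k) (z l)
      - c * (5 * wp + wq + 5 * wd) * ∑ k, (‖B k‖ ^ 2 / 2 + 2 * ‖a k‖ ^ 2)
      - c * (5 * we + 10 * wd) * ∑ k, ‖z k‖ ^ 2 := by
  have eZZ : ‖∑ l, z l‖ ^ 2 = ∑ k, ‖z k‖ ^ 2 + ∑ k, ∑ l, off k l * inner ℝ (z k) (z l) := by
    rw [← real_inner_self_eq_norm_sq, inner_sum_sum, dsum_split]
    simp only [real_inner_self_eq_norm_sq]
  have eBB : ‖∑ l, B l‖ ^ 2 = ∑ k, ‖B k‖ ^ 2 + ∑ k, ∑ l, off k l * inner ℝ (B k) (B l) := by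
    rw [← real_inner_self_eq_norm_sq, inner_sum_sum, dsum_split]
    simp only [real_inner_self_eq_norm_sq]
  have eBZ : inner ℝ (∑ l, B l) (∑ l, z l) =
      ∑ k, inner ℝ (B k) (z k) + ∑ k, ∑ l, off k l * inner ℝ (B k) (z l) := by
    rw [inner_sum_sum, dsum_split]
  have eA : ∑ k, ∑ l, off k l * (inner ℝ (B k) (B l) / 4 + sg k l * inner ℝ (a k) (a l)) =
      (1 / 4) * ∑ k, ∑ l, off k l * inner ℝ (B k) (B l) +
        ∑ k, ∑ l, sg k l * inner ℝ (a k) (a l) := by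
    rw [Finset.mul_sum, ← Finset.sum_add_distrib]
    refine Finset.sum_congr rfl fun k _ => ?_
    rw [Finset.mul_sum, ← Finset.sum_add_distrib]
    refine Finset.sum_congr rfl fun l _ => ?_
    by_cases h : k = l
    · subst h
      simp [off, sg_diag]
    · simp only [off, if_neg h]
      ring
  have e1 : ∑ k, (‖B k‖ ^ 2 / 4 - ‖a k‖ ^ 2) = (1 / 4) * ∑ k, ‖B k‖ ^ 2 - ∑ k, ‖a k‖ ^ 2 := by
    rw [Finset.sum_sub_distrib, Finset.mul_sum]
    congr 1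
    exact Finset.sum_congr rfl fun k _ => by ring
  have e2 : ∑ k, (‖B k‖ ^ 2 / 2 + 2 * ‖a k‖ ^ 2) =
      (1 / 2) * ∑ k, ‖B k‖ ^ 2 + 2 * ∑ k, ‖a k‖ ^ 2 := by
    rw [Finset.sum_add_distrib, Finset.mul_sum, Finset.mul_sum]
    congr 1
    exact Finset.sum_congr rfl fun k _ => by ring
  rw [idA, idB, idC, eA, e1, e2, id_D1, id_D2, eZZ, eBB, eBZ]
  generalize ∑ k, ‖z k‖ ^ 2 = zz
  generalize ∑ k, ∑ l, off k l * inner ℝ (z k) (z l) = zo
  generalize ∑ k, ‖B k‖ ^ 2 = bb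
  generalize ∑ k, ∑ l, off k l * inner ℝ (B k) (B l) = bo
  generalize ∑ k, inner ℝ (B k) (z k) = bz
  generalize ∑ k, ∑ l, off k l * inner ℝ (B k) (z l) = bzo
  generalize ∑ k, ‖a k‖ ^ 2 = aa
  generalize ∑ k, ∑ l, sg k l * inner ℝ (a k) (a l) = ao
  have hgi := g_ig
  unfold wp wd we
  rw [id_q, ta_eq, ka_eq]
  linear_combination (4 * (2 * be - eta) * ao) * hgi

end Pool.Agent.Helper35.Jam
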