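import Pool.Agent.Helper35.Jam.Slack
set_option autoImplicit false
namespace Pool.Agent.Helper35.Jam
open Finset Filter Topology
variable {V : Type*} [NormedAddCommGroup V] [InnerProductSpace ℝ V]

/-- all inner products of the triple are the standard ones -/
structure StdGram (B a z : Fin 6 → V) : Prop where
  BB : ∀ k l, inner ℝ (B k) (B l) = if k = l then 2 * (1 + c) else vBB
  aa : ∀ k l, inner ℝ (a k) (a l) = if k = l then (1 - c) / 2 else sg k l * (c - vBB / 4)
  zz : ∀ k l, inner ℝ (z k) (z l) = if k = l then 1 else c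
  Bz : ∀ k l, inner ℝ (B k) (z l) = if k = l then -2 * be + eta * (1 + 5 * c) else 2 * c
  aB : ∀ k l, inner ℝ (a k) (B l) = 0
  az : ∀ k l, inner ℝ (a k) (z l) = 0

theorem sum_ite_off (k : Fin 6) (x y : ℝ) : ∑ l, (if l = k then x else y) = x + 5 * y := by
  have h1 : ∀ l : Fin 6, (if l = k then x else y) = y + (if l = k then (x - y) else 0) := by
    intro l
    split_ifs <;> ring
  simp only [h1, Finset.sum_add_distrib, Finset.sum_ite_eq', Finset.mem_univ, if_true,
    Finset.sum_const, Finset.card_univ, Fintype.card_fin]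
  simp
  ring

theorem stdGram_of_zero (B a z : Fin 6 → V) (h : Adm B a z) (hw : ∀ k, wv B z k = 0)
    (hc : ∀ k, cv a k = 0) : StdGram B a z := by
  obtain ⟨b1, b2, b3, b4⟩ := slack_bounds B a z h 0 le_rfl (by simp [hw]) (by simp [hc])
  have hwq := wq_pos
  have hwp := wp_pos
  have hwe := we_pos
  have hwd := wd_pos
  have e1 : ∀ k, ‖B k‖ ^ 2 / 4 - ‖a k‖ ^ 2 = c := by
    intro k
    have := b1 k
    have h0 : c - (‖B k‖ ^ 2 / 4 - ‖a k‖ ^ 2) ≤ 0 := by
      by_contra hcon
      push Not at hcon
      have := mul_pos (by positivity : 0 < 2 * wq) hcon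
      linarith
    linarith [h.h4 k]
  have e2 : ∀ k l, k ≠ l → c - (inner ℝ (B k) (B l) / 4 + sg k l * inner ℝ (a k) (a l)) = 0 := by
    intro k l hkl
    have := b2 k l hkl
    have h0 : c - (inner ℝ (B k) (B l) / 4 + sg k l * inner ℝ (a k) (a l)) ≤ 0 := by
      by_contra hcon
      push Not at hcon
      have := mul_pos (by positivity : 0 < 2 * wp) hcon
      linarith
    linarith [le_trans (abs_nonneg _) (h.h5 k l hkl)]
  have e3 : ∀ k l, k ≠ l → inner ℝ (z k) (z l) = c := by
    intro k l hkl
    have := b3 k l hkl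
    have h0 : c - inner ℝ (z k) (z l) ≤ 0 := by
      by_contra hcon
      push Not at hcon
      have := mul_pos hwe hcon
      linarith
    linarith [h.h6 k l hkl]
  have e4 : ∀ k l, k ≠ l → c - inner ℝ (B k) (z l) / 2 = 0 := by
    intro k l hkl
    have := b4 k l hkl
    have h0 : c - inner ℝ (B k) (z l) / 2 ≤ 0 := by
      by_contra hcon
      push Not at hcon
      have := mul_pos (by positivity : 0 < 4 * wd) hcon
      linarith
    linarith [le_trans (abs_nonneg _) (h.h7 k l hkl)]
  have e5 : ∀ k l, k ≠ l → inner ℝ (a k) (z l) = 0 := by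
    intro k l hkl
    have := h.h7 k l hkl
    rw [e4 k l hkl] at this
    exact abs_eq_zero.mp (le_antisymm this (abs_nonneg _))
  have e6 : ∀ k l, k ≠ l → sg k l * inner ℝ (B k) (a l) + inner ℝ (a k) (B l) = 0 := by
    intro k l hkl
    have := h.h5 k l hkl
    rw [e2 k l hkl] at this
    have := abs_eq_zero.mp (le_antisymm this (abs_nonneg _))
    linarith
  have ezz : ∀ k l, inner ℝ (z k) (z l) = if k = l then 1 else c := by
    intro k l
    by_cases hkl : k = l
    · subst hkl
      simp [real_inner_self_eq_norm_sq, h.h3]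
    · rw [if_neg hkl, e3 k l hkl]
  have inw : ∀ (u : V) k, inner ℝ u (wv B z k) =
      inner ℝ u (B k) + 2 * be * inner ℝ u (z k) - eta * ∑ l, inner ℝ u (z l) := by
    intro u k
    unfold wv
    rw [inner_sub_right, inner_add_right, inner_smul_right, inner_smul_right, inner_sum]
  have haz : ∀ k, inner ℝ (a k) (z k) = 0 := by
    intro k
    have h0 := inw (a k) k
    rw [hw k, inner_zero_right, h.h1 k] at h0
    have h1 : ∑ l, inner ℝ (a k) (z l) = inner ℝ (a k) (z k) := by
      rw [Finset.sum_eq_single k]
      · intro l _ hl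
        exact e5 k l (Ne.symm hl)
      · simp
    rw [h1] at h0
    have h2 : ta * inner ℝ (a k) (z k) = 0 := by
      rw [ta_eq]
      linarith
    rcases mul_eq_zero.mp h2 with h3 | h3
    · exact absurd h3 (by linarith [ta_pos])
    · exact h3
  have haz' : ∀ k l, inner ℝ (a k) (z l) = 0 := by
    intro k l
    by_cases hkl : k = l
    · subst hkl
      exact haz k
    · exact e5 k l hkl
  have haB : ∀ k l, inner ℝ (a k) (B l) = 0 := by
    intro k l
    have h0 := inw (a k) l
    rw [hw l, inner_zero_right] at h0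
    simp only [haz', Finset.sum_const_zero, mul_zero, add_zero, sub_zero] at h0
    exact h0.symm
  have hBz : ∀ k, inner ℝ (B k) (z k) = -2 * be + eta * (1 + 5 * c) := by
    intro k
    have h0 := inw (z k) k
    rw [hw k, inner_zero_right] at h0
    simp only [ezz, if_true] at h0
    have h1 : ∑ l, (if k = l then (1 : ℝ) else c) = 1 + 5 * c := by
      have := sum_ite_off k 1 c
      simp only [eq_comm (a := k)]
      exact this
    rw [h1, real_inner_comm] at h0
    linarith
  have hBz' : ∀ k l, inner ℝ (B k) (z l) = if k = l then -2 * be + eta * (1 + 5 * c) else 2 * c := by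
    intro k l
    by_cases hkl : k = l
    · subst hkl
      rw [if_pos rfl]
      exact hBz k
    · rw [if_neg hkl]
      linarith [e4 k l hkl]
  have hBB : ∀ k l, k ≠ l → inner ℝ (B k) (B l) = vBB := by
    intro k l hkl
    have h0 := inw (B k) l
    rw [hw l, inner_zero_right] at h0
    have h1 : ∑ j, inner ℝ (B k) (z j) = -2 * be + eta * (1 + 5 * c) + 5 * (2 * c) := by
      rw [← sum_ite_off k]
      refine Finset.sum_congr rfl fun j _ => ?_
      rw [hBz']
      simp only [eq_comm (a := k)]
    rw [h1, hBz' k l, if_neg hkl] at h0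
    unfold vBB
    linarith
  refine ⟨?_, ?_, ezz, hBz', haB, haz'⟩
  · intro k l
    by_cases hkl : k = l
    · subst hkl
      rw [if_pos rfl, real_inner_self_eq_norm_sq]
      linarith [e1 k, h.h2 k]
    · rw [if_neg hkl]
      exact hBB k l hkl
  · intro k l
    by_cases hkl : k = l
    · subst hkl
      rw [if_pos rfl, real_inner_self_eq_norm_sq]
      linarith [e1 k, h.h2 k]
    · rw [if_neg hkl]
      have h0 := e2 k l hkl
      rw [hBB k l hkl] at h0
      have h1 := sg_sq k l hkl
      linear_combination (-sg k l) * h0 - inner ℝ (a k) (a l) * h1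

end Pool.Agent.Helper35.Jam
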